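import Mathlib
import Pool.Agent.Y201.LI.Thm3
import Pool.Agent.Helper386.D5V.Helper386_FF_RR

/-! # Parity of families of lines: generic points, affine coordinates, transcendence degrees -/

set_option autoImplicit false

namespace Pool.Agent.Q35.PL

open MvPolynomial Pool.Agent.TH314.PD Module

noncomputable section

variable {n d : ℕ}

/-- the point `x` is a generic point of the hypersurface `F = 0` -/
def IsGen (F : MvPolynomial (Fin (n + 2)) ℂ) {M : Type} [Field M] [Algebra ℂ M]
    (x : Fin (n + 2) → M) : Prop :=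
  aeval x F = 0 ∧
  ∀ (e : ℕ) (H : MvPolynomial (Fin (n + 2)) ℂ), H.IsHomogeneous e → aeval x H = 0 → F ∣ H

/-- affine coordinates -/
def aff {K : Type} [Field K] (x : Fin (n + 2) → K) : Fin (n + 1) → K := fun j => x j.succ / x 0

/-- dehomogenisation -/
def deh (H : MvPolynomial (Fin (n + 2)) ℂ) : MvPolynomial (Fin (n + 1)) ℂ :=
  aeval (Fin.cons 1 X : Fin (n + 2) → MvPolynomial (Fin (n + 1)) ℂ) H

lemma aeval_comp {σ τ : Type} {R : Type} [CommRing R] [Algebra ℂ R] (x : σ → R)
    (H : τ → MvPolynomial σ ℂ) (p : MvPolynomial τ ℂ) :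
    aeval x (aeval H p) = aeval (fun l => aeval x (H l)) p := by
  have h2 : (aeval x).comp (aeval H) =
      (aeval (fun l => aeval x (H l)) : MvPolynomial τ ℂ →ₐ[ℂ] R) := by
    apply algHom_ext
    intro i
    rw [AlgHom.comp_apply, aeval_X, aeval_X]
  rw [← h2]
  rfl

lemma aeval_deh {R : Type} [CommRing R] [Algebra ℂ R] (u : Fin (n + 1) → R)
    (H : MvPolynomial (Fin (n + 2)) ℂ) :
    aeval u (deh H) = aeval (Fin.cons 1 u : Fin (n + 2) → R) H := by
  unfold deh
  rw [aeval_comp]
  congr 2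
  funext l
  refine Fin.cases ?_ (fun j => ?_) l
  · rw [Fin.cons_zero, Fin.cons_zero, map_one]
  · rw [Fin.cons_succ, Fin.cons_succ, aeval_X]

lemma cons_aff {K : Type} [Field K] (x : Fin (n + 2) → K) (h0 : x 0 ≠ 0) :
    x = fun i => x 0 * (Fin.cons 1 (aff x) : Fin (n + 2) → K) i := by
  funext i
  refine Fin.cases ?_ (fun j => ?_) i
  · rw [Fin.cons_zero, mul_one]
  · rw [Fin.cons_succ]
    unfold aff
    field_simp

lemma aeval_aff {K : Type} [Field K] [Algebra ℂ K] (x : Fin (n + 2) → K) (h0 : x 0 ≠ 0) {e : ℕ}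
    {H : MvPolynomial (Fin (n + 2)) ℂ} (hH : H.IsHomogeneous e) :
    aeval x H = x 0 ^ e * aeval (aff x) (deh H) := by
  conv_lhs => rw [cons_aff x h0]
  rw [aeval_smul_form hH, aeval_deh]

lemma aeval_aff_eq_zero {K : Type} [Field K] [Algebra ℂ K] (x : Fin (n + 2) → K) (h0 : x 0 ≠ 0)
    {e : ℕ} {H : MvPolynomial (Fin (n + 2)) ℂ} (hH : H.IsHomogeneous e) :
    aeval (aff x) (deh H) = 0 ↔ aeval x H = 0 := by
  rw [aeval_aff x h0 hH, mul_eq_zero, or_iff_right (pow_ne_zero _ h0)]

section gen

variable {F : MvPolynomial (Fin (n + 2)) ℂ} (hF : F.IsHomogeneous d) (hd : 2 ≤ d)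
  {M : Type} [Field M] [Algebra ℂ M] {x : Fin (n + 2) → M} (hx : IsGen F x)

include hF hd in
lemma ne_of_not {i : Fin (n + 2)} (hF0 : F ≠ 0) : ¬ F ∣ X i := by
  rintro ⟨B, hB⟩
  have hB0 : B ≠ 0 := by
    rintro rfl
    rw [mul_zero] at hB
    exact X_ne_zero i hB
  have h1 := totalDegree_mul_of_isDomain hF0 hB0
  rw [← hB, totalDegree_X, hF.totalDegree hF0] at h1
  omega

include hF hd hx in
lemma coord_ne (hF0 : F ≠ 0) (i : Fin (n + 2)) : x i ≠ 0 := by
  intro h
  exact ne_of_not hF hd hF0 (hx.2 1 (X i) (isHomogeneous_X _ _) (by rw [aeval_X, h]))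

include hx in
/-- a polynomial which vanishes at the affine coordinates of the generic point -/
lemma ker_dvd (h0 : x 0 ≠ 0) {g : MvPolynomial (Fin (n + 1)) ℂ} (hg : aeval (aff x) g = 0) :
    deh F ∣ g := by
  obtain ⟨g', hg', hgu⟩ := homogenize g
  have h1 : aeval x g' = 0 := by
    conv_lhs => rw [cons_aff x h0]
    rw [aeval_smul_form hg', hgu, hg, mul_zero]
  obtain ⟨B, hB⟩ := hx.2 _ g' hg' h1
  refine ⟨deh B, ?_⟩
  have h2 : deh g' = g := by
    have h3 := hgu (X : Fin (n + 1) → MvPolynomial (Fin (n + 1)) ℂ)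
    rw [aeval_X_left_apply] at h3
    exact h3
  rw [← h2, hB]
  unfold deh
  rw [map_mul]

include hF hx in
lemma deh_zero (h0 : x 0 ≠ 0) : aeval (aff x) (deh F) = 0 :=
  (aeval_aff_eq_zero x h0 hF).2 hx.1

include hF in
lemma deh_zero' (hx : aeval x F = 0) (h0 : x 0 ≠ 0) : aeval (aff x) (deh F) = 0 :=
  (aeval_aff_eq_zero x h0 hF).2 hx

/-- forms divisible by a form have quotients which are forms -/
lemma hom_quot {e : ℕ} (hF : F.IsHomogeneous d) {H : MvPolynomial (Fin (n + 2)) ℂ}
    (hH : H.IsHomogeneous e) (h0 : H ≠ 0) (hdvd : F ∣ H) :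
    d ≤ e ∧ ∃ B : MvPolynomial (Fin (n + 2)) ℂ, B.IsHomogeneous (e - d) ∧ H = F * B := by
  obtain ⟨B, hB⟩ := hdvd
  have hF0 : F ≠ 0 := by
    rintro rfl
    rw [zero_mul] at hB
    exact h0 hB
  have hB0 : B ≠ 0 := by
    rintro rfl
    rw [mul_zero] at hB
    exact h0 hB
  have hde : d ≤ e := by
    have h1 := totalDegree_mul_of_isDomain hF0 hB0
    rw [← hB, hF.totalDegree hF0, hH.totalDegree h0] at h1
    omega
  refine ⟨hde, homogeneousComponent (e - d) B, homogeneousComponent_isHomogeneous _ _, ?_⟩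
  have h2 := hc_mul B F hF hde
  rw [mul_comm F, ← h2, mul_comm B F, ← hB,
    homogeneousComponent_of_mem ((mem_homogeneousSubmodule _ _).2 hH), if_pos rfl]

end gen

/-! ### transcendence degrees -/

lemma algebraic_of_mem {K E : Type} [Field K] [Field E] [Algebra K E] (S : Set E)
    {z : E} (hz : z ∈ IntermediateField.adjoin K S) : IsAlgebraic (Algebra.adjoin K S) z := by
  obtain ⟨a, ha, b, hb, rfl⟩ := IntermediateField.mem_adjoin_iff_div.1 hz
  have h1 : IsAlgebraic (Algebra.adjoin K S) a := isAlgebraic_algebraMap (⟨a, ha⟩ : Algebra.adjoin K S)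
  have h2 : IsAlgebraic (Algebra.adjoin K S) b := isAlgebraic_algebraMap (⟨b, hb⟩ : Algebra.adjoin K S)
  rw [div_eq_mul_inv]
  exact h1.mul h2.inv

lemma ratio_mem_aff {K : Type} [Field K] [Algebra ℂ K] (x : Fin (n + 2) → K) (h0 : x 0 ≠ 0) :
    ratioField x = IntermediateField.adjoin ℂ (Set.range (aff x)) := by
  apply le_antisymm
  · unfold ratioField
    rw [IntermediateField.adjoin_le_iff]
    rintro _ ⟨i, j, rfl⟩
    have h1 : ∀ i : Fin (n + 2), x i / x 0 ∈ IntermediateField.adjoin ℂ (Set.range (aff x)) := by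
      intro i
      refine Fin.cases ?_ (fun l => ?_) i
      · rw [div_self h0]
        exact one_mem _
      · exact IntermediateField.subset_adjoin _ _ ⟨l, rfl⟩
    have h2 : x i / x j = (x i / x 0) / (x j / x 0) := by
      by_cases hj : x j = 0
      · rw [hj]
        simp
      · field_simp
    rw [h2]
    exact div_mem (h1 i) (h1 j)
  · rw [IntermediateField.adjoin_le_iff]
    rintro _ ⟨l, rfl⟩
    exact IntermediateField.subset_adjoin _ _ ⟨_, _, rfl⟩

lemma alg_of_fin {k K : Type} [Field k] [Field K] [Algebra k K] {S : Set K}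
    (h : FiniteDimensional (IntermediateField.adjoin k S) K) :
    Algebra.IsAlgebraic (Algebra.adjoin k S) K := by
  open scoped IntermediateField.algebraAdjoinAdjoin in
  have h4 : Algebra.IsAlgebraic (Algebra.adjoin k S) (IntermediateField.adjoin k S) :=
    inferInstance
  open scoped IntermediateField.algebraAdjoinAdjoin in
  exact Algebra.IsAlgebraic.trans (Algebra.adjoin k S) (IntermediateField.adjoin k S) K

/-- the transcendence degree of a finite extension of the function field of a hypersurface -/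
theorem trdeg_le {F : MvPolynomial (Fin (n + 2)) ℂ} (hF : F.IsHomogeneous d)
    {M : Type} [Field M] [Algebra ℂ M] {x : Fin (n + 2) → M} (hx : aeval x F = 0) (h0 : x 0 ≠ 0)
    (hd0 : deh F ≠ 0)
    (hfd : FiniteDimensional (ratioField x) M) : Algebra.trdeg ℂ M ≤ n := by
  classical
  have hfd' : FiniteDimensional (IntermediateField.adjoin ℂ (Set.range (aff x))) M := by
    rw [← ratio_mem_aff x h0]
    exact hfd
  have halg : Algebra.IsAlgebraic (Algebra.adjoin ℂ (Set.range (aff x))) M := alg_of_fin hfd'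
  obtain ⟨t, ht, hbas⟩ := exists_isTranscendenceBasis_subset (R := ℂ) (A := M) (Set.range (aff x))
  rw [← hbas.cardinalMk_eq_trdeg]
  have htf : t.Finite := (Set.finite_range (aff x)).subset ht
  have _ : Fintype t := htf.fintype
  rw [Cardinal.mk_fintype, Nat.cast_le]
  by_contra hcon
  push Not at hcon
  have h1 : (Set.range (aff x)).ncard ≤ n + 1 := by
    have := Set.ncard_image_le (f := aff x) (s := Set.univ) Set.finite_univ
    rw [Set.image_univ, Set.ncard_univ, Nat.card_eq_fintype_card, Fintype.card_fin] at this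
    exact this
  have h2 : t.ncard = Fintype.card { x // x ∈ t } := by
    rw [← Nat.card_coe_set_eq, Nat.card_eq_fintype_card]
  have h3 : t = Set.range (aff x) :=
    Set.eq_of_subset_of_ncard_le ht (by omega) (Set.finite_range _)
  have h4 : (Set.range (aff x)).ncard = n + 1 := by
    rw [← h3]
    rw [← h3] at h1
    omega
  have hinj : Function.Injective (aff x) := by
    rw [← Set.injOn_univ]
    refine Set.injOn_of_ncard_image_eq ?_ Set.finite_univ
    rw [Set.image_univ, h4, Set.ncard_univ, Nat.card_eq_fintype_card, Fintype.card_fin]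
  have h5 : AlgebraicIndependent ℂ (aff x) := by
    have h6 := hbas.1
    rw [h3] at h6
    exact (algebraicIndependent_subtype_range hinj).1 h6
  exact hd0 (algebraicIndependent_iff.1 h5 _ (deh_zero' hF hx h0))

end

end Pool.Agent.Q35.PL
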