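import Mathlib
import Pool.Agent.Q35.PL.Gen

/-! # Parity of families of lines: the generic point of the family of lines -/

set_option autoImplicit false

namespace Pool.Agent.Q35.PL

open MvPolynomial Pool.Agent.TH314.PD Module

noncomputable section

variable {n d : ℕ} {F : MvPolynomial (Fin (n + 2)) ℂ} {M Ω : Type} [Field M] [Field Ω]
  [Algebra ℂ M] [Algebra M Ω] [Algebra ℂ Ω] [IsScalarTower ℂ M Ω]

/-- the point of the line with the parameter `s` -/
def pt (x lam : Fin (n + 2) → M) (s : Ω) : Fin (n + 2) → Ω :=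
  fun i => algebraMap M Ω (x i) + s * algebraMap M Ω (lam i)

/-- the restriction of a form to the line -/
def bin (H : MvPolynomial (Fin (n + 2)) ℂ) (x lam : Fin (n + 2) → M) : Polynomial M :=
  aeval (fun i => Polynomial.C (x i) + Polynomial.X * Polynomial.C (lam i)) H

lemma aeval_pt (x lam : Fin (n + 2) → M) (s : Ω) (H : MvPolynomial (Fin (n + 2)) ℂ) :
    aeval (pt x lam s) H = Polynomial.aeval s (bin H x lam) := by
  have h1 : ((Polynomial.aeval s : Polynomial M →ₐ[M] Ω).restrictScalars ℂ).comp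
      (aeval (fun i => Polynomial.C (x i) + Polynomial.X * Polynomial.C (lam i)) :
        MvPolynomial (Fin (n + 2)) ℂ →ₐ[ℂ] Polynomial M) = aeval (pt x lam s) := by
    apply algHom_ext
    intro i
    rw [AlgHom.comp_apply, aeval_X, aeval_X, AlgHom.restrictScalars_apply, map_add, map_mul,
      Polynomial.aeval_C, Polynomial.aeval_C, Polynomial.aeval_X]
    rfl
  rw [← h1]
  rfl

lemma coeff_bin (x lam : Fin (n + 2) → M) (H : MvPolynomial (Fin (n + 2)) ℂ) :
    (bin H x lam).coeff 0 = aeval x H := by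
  have h1 := aeval_pt x lam (0 : M) H
  have h2 : pt x lam (0 : M) = x := by
    funext i
    simp [pt]
  rw [h2] at h1
  rw [h1, Polynomial.coeff_zero_eq_aeval_zero]

lemma bin_zero_iff {x lam : Fin (n + 2) → M} {s : Ω} (hs : Transcendental M s)
    (H : MvPolynomial (Fin (n + 2)) ℂ) : aeval (pt x lam s) H = 0 ↔ bin H x lam = 0 := by
  rw [aeval_pt]
  exact ⟨fun h => (transcendental_iff.1 hs) _ h, fun h => by rw [h, map_zero]⟩

/-- the generic point of the family of lines is a generic point of the space -/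
theorem gen_pt {x lam : Fin (n + 2) → M} {s : Ω} (hs : Transcendental M s)
    (hF : F.IsHomogeneous d) (hd : 2 ≤ d) (hx : IsGen F x) (hb : bin F x lam ≠ 0) :
    ∀ (e : ℕ) (H : MvPolynomial (Fin (n + 2)) ℂ), H.IsHomogeneous e →
      aeval (pt x lam s) H = 0 → H = 0 := by
  intro e
  induction e using Nat.strong_induction_on with
  | _ e ih =>
    intro H hH h0
    by_contra hne
    have h1 : bin H x lam = 0 := (bin_zero_iff hs H).1 h0
    have h2 : aeval x H = 0 := by rw [← coeff_bin x lam, h1, Polynomial.coeff_zero]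
    obtain ⟨hde, B, hB, hHB⟩ := hom_quot hF hH hne (hx.2 e H hH h2)
    have h3 : aeval (pt x lam s) B = 0 := by
      rw [hHB, map_mul, mul_eq_zero] at h0
      exact h0.resolve_left fun h => hb ((bin_zero_iff hs F).1 h)
    have h4 := ih (e - d) (by omega) B hB h3
    rw [h4, mul_zero] at hHB
    exact hne hHB

omit [Algebra ℂ M] [Algebra ℂ Ω] [IsScalarTower ℂ M Ω] in
lemma pt_ne {x lam : Fin (n + 2) → M} {s : Ω} (hs : Transcendental M s) {i : Fin (n + 2)}
    (h0 : x i ≠ 0) : pt x lam s i ≠ 0 := by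
  intro h
  have h1 : Polynomial.aeval s (Polynomial.C (x i) + Polynomial.X * Polynomial.C (lam i)) = 0 := by
    rw [map_add, map_mul, Polynomial.aeval_C, Polynomial.aeval_C, Polynomial.aeval_X]
    exact h
  have h2 := (transcendental_iff.1 hs) _ h1
  have h3 := congrArg (Polynomial.coeff · 0) h2
  simp at h3
  exact h0 h3

theorem inj_aff {K : Type} [Field K] [Algebra ℂ K] {p : Fin (n + 2) → K} (h0 : p 0 ≠ 0)
    (hp : ∀ (e : ℕ) (H : MvPolynomial (Fin (n + 2)) ℂ), H.IsHomogeneous e →
      aeval p H = 0 → H = 0) : AlgebraicIndependent ℂ (aff p) := by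
  rw [algebraicIndependent_iff]
  intro g hg
  obtain ⟨g', hg', hgu⟩ := homogenize g
  have h1 : aeval p g' = 0 := by
    conv_lhs => rw [cons_aff p h0]
    rw [aeval_smul_form hg', hgu, hg, mul_zero]
  have h2 := hp _ g' hg' h1
  have h3 := hgu (X : Fin (n + 1) → MvPolynomial (Fin (n + 1)) ℂ)
  rw [aeval_X_left_apply, h2, map_zero] at h3
  exact h3.symm

lemma deh_ne {K : Type} [Field K] [Algebra ℂ K] {p : Fin (n + 2) → K} (h0 : p 0 ≠ 0)
    (hF : F.IsHomogeneous d) (h : aeval p F ≠ 0) : deh F ≠ 0 := by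
  intro h1
  apply h
  rw [aeval_aff p h0 hF, h1, map_zero, mul_zero]

omit [Algebra ℂ M] [Algebra ℂ Ω] [IsScalarTower ℂ M Ω] in
lemma fin_top {S : Set Ω} (htop : IntermediateField.adjoin M S = ⊤) :
    FiniteDimensional (IntermediateField.adjoin M S) Ω := by
  rw [htop]
  exact .of_finrank_pos (by rw [IntermediateField.finrank_top]; exact one_pos)

theorem trdeg_line (hM : Algebra.trdeg ℂ M ≤ n) {s : Ω}
    (htop : IntermediateField.adjoin M {s} = ⊤) : Algebra.trdeg ℂ Ω ≤ (n + 1 : ℕ) := by
  rw [← trdeg_add_eq ℂ M (A := Ω)]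
  have h1 : Algebra.trdeg M Ω ≤ 1 := by
    have h3 : Algebra.IsAlgebraic (Algebra.adjoin M ({s} : Set Ω)) Ω := alg_of_fin (fin_top htop)
    refine (Algebra.IsAlgebraic.trdeg_le_cardinalMk M ({s} : Set Ω)).trans ?_
    rw [Cardinal.mk_singleton]
  push_cast
  exact add_le_add hM h1

theorem ess_line {x : Fin (n + 2) → M} (hfd : FiniteDimensional (ratioField x) M) {s : Ω}
    (htop : IntermediateField.adjoin M {s} = ⊤) : Algebra.EssFiniteType ℂ Ω := by
  have h1 : Algebra.EssFiniteType ℂ (ratioField x) := by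
    refine IntermediateField.essFiniteType_iff.2 ?_
    refine ⟨(Set.range fun ij : Fin (n + 2) × Fin (n + 2) => x ij.1 / x ij.2).toFinite.toFinset, ?_⟩
    rw [Set.Finite.coe_toFinset]
    unfold ratioField
    congr 1
    ext z
    simp only [Set.mem_range, Prod.exists, Set.mem_ofPred_eq]
    constructor
    · rintro ⟨i, j, h⟩
      exact ⟨i, j, h.symm⟩
    · rintro ⟨i, j, h⟩
      exact ⟨i, j, h.symm⟩
  have h2 : Algebra.EssFiniteType ℂ M := Algebra.EssFiniteType.comp ℂ (ratioField x) M
  have h3 : Algebra.EssFiniteType M Ω := by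
    have h4 : Algebra.EssFiniteType M (IntermediateField.adjoin M ({s} : Set Ω)) :=
      IntermediateField.essFiniteType_iff.2 ⟨{s}, by simp⟩
    have h5 := fin_top htop
    exact Algebra.EssFiniteType.comp M (IntermediateField.adjoin M ({s} : Set Ω)) Ω
  exact Algebra.EssFiniteType.comp ℂ M Ω

/-- the field of the line is finite over the field of its generic point -/
theorem fin_line {x lam : Fin (n + 2) → M} (hfd : FiniteDimensional (ratioField x) M) {s : Ω}
    (hM : Algebra.trdeg ℂ M ≤ n)
    (htop : IntermediateField.adjoin M {s} = ⊤) (h0 : pt x lam s 0 ≠ 0)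
    (hind : AlgebraicIndependent ℂ (aff (pt x lam s))) :
    FiniteDimensional (ratioField (pt x lam s)) Ω := by
  have hbas : IsTranscendenceBasis ℂ (aff (pt x lam s)) :=
    hind.isTranscendenceBasis_of_trdeg_le_of_finite (by
      rw [Cardinal.mk_fin]
      exact trdeg_line hM htop)
  have halg := hbas.isAlgebraic_field
  rw [← ratio_mem_aff _ h0] at halg
  have h2 := ess_line hfd htop
  have h3 : Algebra.EssFiniteType (ratioField (pt x lam s)) Ω :=
    Algebra.EssFiniteType.of_comp ℂ (ratioField (pt x lam s)) Ω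
  obtain ⟨t, ht⟩ := IntermediateField.fg_top (ratioField (pt x lam s)) Ω
  have h5 : FiniteDimensional (ratioField (pt x lam s))
      (IntermediateField.adjoin (ratioField (pt x lam s)) (t : Set Ω)) :=
    IntermediateField.finiteDimensional_adjoin (fun x _ => (halg.isAlgebraic x).isIntegral)
  rw [ht] at h5
  exact IntermediateField.topEquiv.toLinearEquiv.finiteDimensional

end

end Pool.Agent.Q35.PL
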