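import Mathlib
import Pool.Agent.Q35.PL.Line

/-! # Parity of families of lines: the places over the generic point of the hypersurface -/

set_option autoImplicit false

namespace Pool.Agent.Q35.PL

open MvPolynomial Pool.Agent.TH314.PD Module FF Pool.Agent.Y201.LI

noncomputable section

variable {n d : ℕ} {F : MvPolynomial (Fin (n + 2)) ℂ}

/-- the reduction of a point at a place -/
def rpt {K : Type} [Field K] [Algebra ℂ K] (w : Place ℂ K) (p : Fin (n + 2) → K) :
    Fin (n + 2) → w.RF := fun i => w.red (p i / p 0)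

/-- the place lies over the generic point of the hypersurface -/
def Good {K M : Type} [Field K] [Algebra ℂ K] [Field M] [Algebra ℂ M] (p : Fin (n + 2) → K)
    (x : Fin (n + 2) → M) (w : Place ℂ K) : Prop :=
  (∀ j, w.Reg (aff p j)) ∧ ∀ g : MvPolynomial (Fin (n + 1)) ℂ,
    aeval (fun j => w.red (aff p j)) g = 0 ↔ aeval (aff x) g = 0

lemma rpt_eq {K : Type} [Field K] [Algebra ℂ K] (w : Place ℂ K) {p : Fin (n + 2) → K}
    (h0 : p 0 ≠ 0) : rpt w p = Fin.cons 1 fun j => w.red (aff p j) := by
  funext i
  refine Fin.cases ?_ (fun j => ?_) i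
  · unfold rpt
    rw [div_self h0, Fin.cons_zero, w.red_one]
  · rw [Fin.cons_succ]
    rfl

lemma rpt_zero {K : Type} [Field K] [Algebra ℂ K] (w : Place ℂ K) {p : Fin (n + 2) → K}
    (h0 : p 0 ≠ 0) : rpt w p 0 = 1 := by
  rw [rpt_eq w h0, Fin.cons_zero]

lemma aff_rpt {K : Type} [Field K] [Algebra ℂ K] (w : Place ℂ K) {p : Fin (n + 2) → K}
    (h0 : p 0 ≠ 0) : aff (rpt w p) = fun j => w.red (aff p j) := by
  funext j
  unfold aff
  rw [rpt_zero w h0, div_one]
  rfl

lemma isGen_rpt {K M : Type} [Field K] [Algebra ℂ K] [Field M] [Algebra ℂ M]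
    {p : Fin (n + 2) → K} (h0 : p 0 ≠ 0) (hF : F.IsHomogeneous d)
    {x : Fin (n + 2) → M} (hx0 : x 0 ≠ 0) (hx : IsGen F x) {w : Place ℂ K} (hw : Good p x w) :
    IsGen F (rpt w p) := by
  have h1 : rpt w p 0 ≠ 0 := by
    rw [rpt_zero w h0]
    exact one_ne_zero
  have key : ∀ (e : ℕ) (H : MvPolynomial (Fin (n + 2)) ℂ), H.IsHomogeneous e →
      (aeval (rpt w p) H = 0 ↔ aeval x H = 0) := by
    intro e H hH
    rw [← aeval_aff_eq_zero _ h1 hH, ← aeval_aff_eq_zero _ hx0 hH, aff_rpt w h0]
    exact hw.2 _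
  exact ⟨(key d F hF).2 hx.1, fun e H hH h => hx.2 e H hH ((key e H hH).1 h)⟩

/-- reduction of the value of a polynomial -/
lemma red_aeval {K : Type} [Field K] [Algebra ℂ K] (w : Place ℂ K) {ι : Type} (u : ι → K)
    (hu : ∀ j, w.Reg (u j)) (g : MvPolynomial ι ℂ) :
    w.Reg (aeval u g) ∧ w.red (aeval u g) = aeval (fun j => w.red (u j)) g := by
  induction g using MvPolynomial.induction_on with
  | C a =>
    rw [aeval_C, aeval_C]
    exact ⟨w.reg_const a, rfl⟩
  | add p q hp hq =>
    rw [map_add, map_add]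
    exact ⟨w.reg_add hp.1 hq.1, by rw [w.red_add hp.1 hq.1, hp.2, hq.2]⟩
  | mul_X p i hp =>
    rw [map_mul, map_mul, aeval_X, aeval_X]
    exact ⟨w.reg_mul hp.1 (hu i), by rw [w.red_mul hp.1 (hu i), hp.2]⟩

lemma reg_div {K : Type} [Field K] [Algebra ℂ K] (w : Place ℂ K) {f g : K} (hf : w.Reg f)
    (hg : w.Reg g) (h : w.red g ≠ 0) : w.Reg (f / g) ∧ w.red (f / g) = w.red f / w.red g := by
  have hg0 : g ≠ 0 := by
    rintro rfl
    exact h w.red_zero
  have hg1 : w.ord g = 0 := by
    by_contra hne
    have := (w.reg_iff hg0).1 hg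
    exact h ((w.red_eq_zero_iff hg).2 (Or.inr (by omega)))
  have hreg : w.Reg (f / g) := by
    by_cases hf0 : f = 0
    · rw [hf0, zero_div]
      exact w.reg_zero
    · rw [w.reg_iff (div_ne_zero hf0 hg0), w.ord_div hf0 hg0, hg1]
      have := (w.reg_iff hf0).1 hf
      omega
  refine ⟨hreg, ?_⟩
  rw [eq_div_iff h, ← w.red_mul hreg hg, div_mul_cancel₀ _ hg0]

theorem places (hF : F.IsHomogeneous d) {M : Type} [Field M] [Algebra ℂ M]
    {x : Fin (n + 2) → M} (hx : IsGen F x) (hx0 : x 0 ≠ 0)
    {K : Type} [Field K] [Algebra ℂ K] {p : Fin (n + 2) → K} (h0 : p 0 ≠ 0)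
    (hind : AlgebraicIndependent ℂ (aff p)) (hFp : aeval p F ≠ 0)
    (hfd : FiniteDimensional (ratioField p) K) :
    ∃ S : Finset (Place ℂ K), (∀ w, w ∈ S ↔ Good p x w) ∧
      (∀ w ∈ S, 0 < finrank (ratioField (rpt w p)) w.RF) ∧
      ∑ w ∈ S, (w.ord (aeval (aff p) (deh F))).toNat * finrank (ratioField (rpt w p)) w.RF =
        finrank (ratioField p) K := by
  classical
  let R := MvPolynomial (Fin (n + 1)) ℂ
  let 𝔭 : Ideal R := RingHom.ker (aeval (aff x) : R →ₐ[ℂ] M)
  have hprime : 𝔭.IsPrime := RingHom.ker_isPrime _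
  let A := Localization.AtPrime 𝔭
  let f : R := deh F
  have hf0 : f ≠ 0 := deh_ne h0 hF hFp
  have h𝔭 : 𝔭 = Ideal.span {f} := by
    apply le_antisymm
    · intro g hg
      rw [Ideal.mem_span_singleton]
      exact ker_dvd hx hx0 hg
    · rw [Ideal.span_singleton_le_iff_mem]
      exact deh_zero hF hx hx0
  have hmap : Ideal.map (algebraMap R A) 𝔭 = Ideal.span {algebraMap R A f} :=
    (congrArg (Ideal.map (algebraMap R A)) h𝔭).trans (by
      rw [Ideal.map_span, Set.image_singleton])
  have hmax : IsLocalRing.maximalIdeal A = Ideal.span {algebraMap R A f} := by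
    rw [← hmap]
    exact (Localization.AtPrime.map_eq_maximalIdeal (I := 𝔭)).symm
  have hnoeth : IsNoetherianRing A := IsLocalization.isNoetherianRing 𝔭.primeCompl A inferInstance
  have hdom : IsDomain A := inferInstance
  have hprin : (IsLocalRing.maximalIdeal A).IsPrincipal := ⟨⟨algebraMap R A f, hmax⟩⟩
  have hded : IsDedekindDomain A :=
    ((tfae_of_isNoetherianRing_of_isLocalRing_of_isDomain A).out 4 2).1 hprin
  -- the field
  have hmem : ∀ j, aff p j ∈ ratioField p := fun j =>
    IntermediateField.subset_adjoin _ _ ⟨_, _, rfl⟩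
  let ψ : R →ₐ[ℂ] ratioField p := aeval fun j => ⟨aff p j, hmem j⟩
  have hψ : ∀ g : R, ((ψ g : ratioField p) : K) = aeval (aff p) g := by
    intro g
    have h1 : ((ratioField p).val.comp ψ) = (aeval (aff p) : R →ₐ[ℂ] K) := by
      apply algHom_ext
      intro j
      rw [AlgHom.comp_apply, aeval_X, aeval_X]
      rfl
    rw [← h1]
    rfl
  have hinj : ∀ g : R, ψ g = 0 → g = 0 := by
    intro g hg
    apply algebraicIndependent_iff.1 hind
    rw [← hψ, hg]
    rfl
  have hinj' : Function.Injective ψ := (injective_iff_map_eq_zero ψ).2 hinj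
  have hunit : ∀ y : 𝔭.primeCompl, IsUnit ((ψ : R →+* ratioField p) y) := by
    rintro ⟨y, hy⟩
    rw [isUnit_iff_ne_zero]
    intro h
    apply hy
    have : y = 0 := hinj y h
    rw [this]
    exact Ideal.zero_mem _
  let φ : A →+* ratioField p := IsLocalization.lift (M := 𝔭.primeCompl) hunit
  have hφ : ∀ g : R, φ (algebraMap R A g) = ψ g := fun g => IsLocalization.lift_eq hunit g
  let _ : Algebra A (ratioField p) := φ.toAlgebra
  let _ : Algebra A K := ((algebraMap (ratioField p) K).comp φ).toAlgebra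
  have hst1 : IsScalarTower A (ratioField p) K := IsScalarTower.of_algebraMap_eq fun _ => rfl
  have hφi : Function.Injective φ := by
    rw [injective_iff_map_eq_zero]
    intro a ha
    obtain ⟨g, h, rfl⟩ := IsLocalization.exists_mk'_eq 𝔭.primeCompl a
    rw [IsLocalization.mk'_eq_zero_iff]
    have h1 : φ (IsLocalization.mk' A g h * algebraMap R A h) = 0 := by rw [map_mul, ha, zero_mul]
    rw [IsLocalization.mk'_spec, hφ] at h1
    exact ⟨1, by rw [hinj g h1]; simp⟩
  have hK : ∀ g : R, algebraMap A K (algebraMap R A g) = aeval (aff p) g := by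
    intro g
    rw [← hψ, ← hφ]
    rfl
  have hst2 : IsScalarTower ℂ A K := by
    refine IsScalarTower.of_algebraMap_eq fun c => ?_
    have h1 : algebraMap ℂ A c = algebraMap R A (C c) := by
      rw [IsScalarTower.algebraMap_apply ℂ R A]
      rfl
    rw [h1, hK, aeval_C]
  have hfaith : FaithfulSMul A (ratioField p) :=
    (faithfulSMul_iff_algebraMap_injective A (ratioField p)).2 hφi
  have hfr : IsFractionRing A (ratioField p) := by
    refine IsFractionRing.of_field A (ratioField p) fun z => ?_
    have hz : (z : K) ∈ IntermediateField.adjoin ℂ (Set.range (aff p)) := by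
      rw [← ratio_mem_aff p h0]
      exact z.2
    obtain ⟨r, s, hrs⟩ := (IntermediateField.mem_adjoin_range_iff ℂ (aff p) _).1 hz
    refine ⟨algebraMap R A r, algebraMap R A s, ?_⟩
    apply Subtype.ext
    have h1 : ((algebraMap A (ratioField p) (algebraMap R A r) : ratioField p) : K) =
        aeval (aff p) r := hK r
    have h2 : ((algebraMap A (ratioField p) (algebraMap R A s) : ratioField p) : K) =
        aeval (aff p) s := hK s
    rw [hrs, ← h1, ← h2]
    rfl
  have hchar : CharZero (ratioField p) :=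
    charZero_of_injective_algebraMap (algebraMap ℂ (ratioField p)).injective
  have hsep : Algebra.IsSeparable (ratioField p) K := inferInstance
  have hπ : algebraMap R A f ≠ 0 := by
    intro h
    have h1 := hK f
    rw [h, map_zero] at h1
    exact hFp ((aeval_aff_eq_zero p h0 hF).1 h1.symm)
  have hmax' : (Ideal.span {algebraMap R A f}).IsMaximal := by
    rw [← hmax]
    infer_instance
  obtain ⟨S, hS1, hS2, hS3⟩ := fundamental (k := ℂ) (A := A) (L := K) (ratioField p)
    (algebraMap R A f) hπ hmax'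
  have hfa : ∀ g : R, f ∣ g ↔ aeval (aff x) g = 0 := by
    intro g
    refine ⟨?_, ker_dvd hx hx0⟩
    rintro ⟨b, rfl⟩
    rw [map_mul, deh_zero hF hx hx0, zero_mul]
  have hden : ∀ w : Place ℂ K, Good p x w → ∀ a : A, ∃ r s : R,
      algebraMap A K a = aeval (aff p) r / aeval (aff p) s ∧
      w.red (aeval (aff p) s) ≠ 0 := by
    intro w hw a
    obtain ⟨g, h, rfl⟩ := IsLocalization.exists_mk'_eq 𝔭.primeCompl a
    refine ⟨g, h, ?_, ?_⟩
    · have h3 : aeval (aff p) (h : R) ≠ 0 := by
        intro h4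
        have h5 : (h : R) = 0 := algebraicIndependent_iff.1 hind _ h4
        exact h.2 (by rw [h5]; exact Ideal.zero_mem _)
      rw [eq_div_iff h3, ← hK, ← hK, ← map_mul, IsLocalization.mk'_spec]
    · rw [(red_aeval w (aff p) hw.1 _).2]
      intro h4
      exact h.2 ((hw.2 _).1 h4)
  have hSG : ∀ w, w ∈ S ↔ Good p x w := by
    intro w
    rw [hS1]
    constructor
    · rintro ⟨h1, h2⟩
      have hreg : ∀ j, w.Reg (aff p j) := by
        intro j
        have h3 := h1 (algebraMap R A (X j))
        rwa [hK, aeval_X] at h3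
      refine ⟨hreg, fun g => ?_⟩
      rw [← (red_aeval w (aff p) hreg g).2]
      constructor
      · intro h3
        by_contra hne
        have hg : g ∈ 𝔭.primeCompl := hne
        have h4 := h1 (IsLocalization.mk' A 1 ⟨g, hg⟩)
        have h5 : algebraMap A K (IsLocalization.mk' A 1 ⟨g, hg⟩) * aeval (aff p) g = 1 := by
          rw [← hK, ← map_mul]
          have h6 := IsLocalization.mk'_spec A (1 : R) (⟨g, hg⟩ : 𝔭.primeCompl)
          rw [h6, map_one, map_one]
        have h6 := congrArg w.red h5
        rw [w.red_mul h4 (red_aeval w (aff p) hreg g).1, h3, mul_zero, w.red_one] at h6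
        exact zero_ne_one h6
      · intro h3
        obtain ⟨b, rfl⟩ := (hfa g).2 h3
        rw [map_mul, w.red_mul (red_aeval w (aff p) hreg f).1 (red_aeval w (aff p) hreg b).1]
        have h4 : w.red (aeval (aff p) f) = 0 := by
          rw [w.red_eq_zero_iff (red_aeval w (aff p) hreg f).1]
          rw [hK] at h2
          exact Or.inr h2
        rw [h4, zero_mul]
    · intro hw
      refine ⟨fun a => ?_, ?_⟩
      · obtain ⟨r, s, h1, h2⟩ := hden w hw a
        rw [h1]
        exact (reg_div w (red_aeval w (aff p) hw.1 r).1 (red_aeval w (aff p) hw.1 s).1 h2).1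
      · have h1 : w.red (aeval (aff p) f) = 0 := by
          rw [(red_aeval w (aff p) hw.1 f).2]
          exact (hw.2 f).2 (deh_zero hF hx hx0)
        rw [w.red_eq_zero_iff (red_aeval w (aff p) hw.1 f).1] at h1
        rw [hK]
        refine h1.resolve_left fun h => ?_
        exact hFp ((aeval_aff_eq_zero p h0 hF).1 h)
  have hrel : ∀ w ∈ S, finrank (ratioField (rpt w p)) w.RF = w.relf A := by
    intro w hw
    unfold Place.relf
    have hw' := (hSG w).1 hw
    have h1' : rpt w p 0 ≠ 0 := by
      rw [rpt_zero w h0]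
      exact one_ne_zero
    have haff : ∀ j, aff (rpt w p) j = w.red (aff p j) := fun j => by rw [aff_rpt w h0]
    refine (finrank_same ?_).2
    intro z
    constructor
    · rintro ⟨a, rfl⟩
      refine ⟨⟨(a : w.RF), ?_⟩, rfl⟩
      have ha : (a : w.RF) ∈ IntermediateField.adjoin ℂ (Set.range (aff (rpt w p))) := by
        rw [← ratio_mem_aff (rpt w p) h1']
        exact a.2
      generalize (a : w.RF) = b at ha
      induction ha using IntermediateField.adjoin_induction with
      | mem y hy =>
        obtain ⟨j, rfl⟩ := hy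
        apply Subfield.subset_closure
        refine ⟨algebraMap R A (X j), ?_⟩
        show w.red (algebraMap A K (algebraMap R A (X j))) = _
        rw [hK, aeval_X, haff]
      | algebraMap c =>
        apply Subfield.subset_closure
        refine ⟨algebraMap R A (C c), ?_⟩
        show w.red (algebraMap A K (algebraMap R A (C c))) = _
        rw [hK, aeval_C]
        rfl
      | add a b _ _ ha hb => exact add_mem ha hb
      | inv a _ ha => exact inv_mem ha
      | mul a b _ _ ha hb => exact mul_mem ha hb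
    · rintro ⟨a, rfl⟩
      refine ⟨⟨(a : w.RF), ?_⟩, rfl⟩
      have hle : Subfield.closure (Set.range fun a : A => w.red (algebraMap A K a)) ≤
          (ratioField (rpt w p)).toSubfield := by
        rw [Subfield.closure_le]
        rintro _ ⟨a, rfl⟩
        show w.red (algebraMap A K a) ∈ ratioField (rpt w p)
        obtain ⟨r, s, h1, h2⟩ := hden w hw' a
        have hr := red_aeval w (aff p) hw'.1 r
        have hs := red_aeval w (aff p) hw'.1 s
        rw [h1, (reg_div w hr.1 hs.1 h2).2, hr.2, hs.2, ratio_mem_aff (rpt w p) h1',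
          IntermediateField.mem_adjoin_range_iff]
        refine ⟨r, s, ?_⟩
        rw [aff_rpt w h0]
      exact hle a.2

  refine ⟨S, hSG, fun w hw => ?_, ?_⟩
  · rw [hrel w hw]
    exact hS2 w hw
  · rw [← hS3]
    refine Finset.sum_congr rfl fun w hw => ?_
    rw [hK, hrel w hw]

end

end Pool.Agent.Q35.PL
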