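import Mathlib
import Pool.Agent.Q35.PL.Dvr

/-! # Parity of families of lines: the places which are not trivial on the base -/

set_option autoImplicit false

namespace Pool.Agent.Q35.PL

open MvPolynomial Pool.Agent.TH314.PD Module FF Pool.Agent.Y201.LI

noncomputable section

variable {n d : ℕ} {F : MvPolynomial (Fin (n + 2)) ℂ}

/-! ### restriction of forms to lines -/

lemma aeval_line {M R : Type} [Field M] [Algebra ℂ M] [CommRing R] [Algebra M R] [Algebra ℂ R]
    [IsScalarTower ℂ M R] (x lam : Fin (n + 2) → M) (q : R) (H : MvPolynomial (Fin (n + 2)) ℂ) :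
    aeval (fun i => algebraMap M R (x i) + q * algebraMap M R (lam i)) H =
      Polynomial.aeval q (bin H x lam) := by
  have h1 : ((Polynomial.aeval q : Polynomial M →ₐ[M] R).restrictScalars ℂ).comp
      (aeval (fun i => Polynomial.C (x i) + Polynomial.X * Polynomial.C (lam i)) :
        MvPolynomial (Fin (n + 2)) ℂ →ₐ[ℂ] Polynomial M) =
      aeval (fun i => algebraMap M R (x i) + q * algebraMap M R (lam i)) := by
    apply algHom_ext
    intro i
    rw [AlgHom.comp_apply, aeval_X, aeval_X, AlgHom.restrictScalars_apply, map_add, map_mul,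
      Polynomial.aeval_C, Polynomial.aeval_C, Polynomial.aeval_X]
  rw [← h1]
  rfl

/-- the line through a point of a line -/
lemma bin_shift {M : Type} [Field M] [Algebra ℂ M] (hF : F.IsHomogeneous d)
    (a b : Fin (n + 2) → M) (α β : M) (hα : α ≠ 0) (h : bin F a b = 0) :
    aeval (fun j => Polynomial.C (α * a j + β * b j) + Polynomial.X * Polynomial.C (b j)) F =
      0 := by
  have h1 : (fun j => Polynomial.C (α * a j + β * b j) + Polynomial.X * Polynomial.C (b j)) =
      fun j => Polynomial.C α * (algebraMap M (Polynomial M) (a j) +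
        (Polynomial.C α⁻¹ * (Polynomial.X + Polynomial.C β)) * algebraMap M (Polynomial M) (b j)) := by
    funext j
    have h2 : (Polynomial.C α : Polynomial M) * Polynomial.C α⁻¹ = 1 := by
      rw [← Polynomial.C_mul, mul_inv_cancel₀ hα, Polynomial.C_1]
    rw [Polynomial.algebraMap_eq, Polynomial.C_add, Polynomial.C_mul, Polynomial.C_mul]
    linear_combination (-(Polynomial.X + Polynomial.C β) * Polynomial.C (b j)) * h2
  rw [h1, aeval_smul_form hF, aeval_line, h, map_zero, mul_zero]

/-! ### transcendence bases among the reductions -/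

/-- a place is trivial on a field, if there is a transcendence basis with independent
reductions -/
theorem triv_of_indep {M Ω : Type} [Field M] [Field Ω] [Algebra ℂ M] [Algebra M Ω] [Algebra ℂ Ω]
    [IsScalarTower ℂ M Ω] (hM : Algebra.trdeg ℂ M ≤ n) (w : Place ℂ Ω) (z : Fin n → M)
    (hz : ∀ i, w.Reg (algebraMap M Ω (z i)))
    (hind : AlgebraicIndependent ℂ fun i => w.red (algebraMap M Ω (z i))) (m : M) (hm : m ≠ 0) :
    w.ord (algebraMap M Ω m) = 0 := by
  have hpol : ∀ g : MvPolynomial (Fin n) ℂ, g ≠ 0 →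
      aeval z g ≠ 0 ∧ w.ord (algebraMap M Ω (aeval z g)) = 0 := by
    intro g hg
    have h1 : algebraMap M Ω (aeval z g) = aeval (fun i => algebraMap M Ω (z i)) g :=
      (aeval_algebraMap_apply Ω z g).symm
    obtain ⟨h2, h3⟩ := red_aeval w (fun i => algebraMap M Ω (z i)) hz g
    rw [← h1] at h2 h3
    have h4 : w.red (algebraMap M Ω (aeval z g)) ≠ 0 := by
      rw [h3]
      intro h
      exact hg (algebraicIndependent_iff.1 hind _ h)
    have h5 : algebraMap M Ω (aeval z g) ≠ 0 := by
      intro h
      rw [h] at h4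
      exact h4 w.red_zero
    refine ⟨fun h => h5 (by rw [h, map_zero]), ?_⟩
    by_contra hne
    have := (w.reg_iff h5).1 h2
    exact h4 ((w.red_eq_zero_iff h2).2 (Or.inr (by omega)))
  have hzind : AlgebraicIndependent ℂ z := by
    rw [algebraicIndependent_iff]
    intro g hg
    by_contra hne
    exact (hpol g hne).1 hg
  have hbas : IsTranscendenceBasis ℂ z :=
    hzind.isTranscendenceBasis_of_trdeg_le_of_finite (by rw [Cardinal.mk_fin]; exact hM)
  have halg := hbas.isAlgebraic_field
  let L := IntermediateField.adjoin ℂ (Set.range z)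
  let w' : Place L Ω :=
    { ord := w.ord
      ord_zero := w.ord_zero
      ord_mul := w.ord_mul
      ord_add := w.ord_add
      ord_const := by
        intro c hc
        obtain ⟨r, s, hrs⟩ := (IntermediateField.mem_adjoin_range_iff ℂ z _).1 c.2
        have hc' : (c : M) ≠ 0 := fun h => hc (Subtype.ext h)
        have hr : r ≠ 0 := by
          rintro rfl
          rw [map_zero, zero_div] at hrs
          exact hc' hrs
        have hs : s ≠ 0 := by
          rintro rfl
          rw [map_zero, div_zero] at hrs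
          exact hc' hrs
        have h1 : algebraMap L Ω c = algebraMap M Ω (aeval z r) / algebraMap M Ω (aeval z s) := by
          rw [← map_div₀, ← hrs]
          rfl
        rw [h1, w.ord_div, (hpol r hr).2, (hpol s hs).2, sub_zero]
        · exact fun h => (hpol r hr).1 ((algebraMap M Ω).injective (by rw [h, map_zero]))
        · exact fun h => (hpol s hs).1 ((algebraMap M Ω).injective (by rw [h, map_zero]))
      surj := w.surj }
  have h1 : IsAlgebraic L (algebraMap M Ω m) := (halg.isAlgebraic m).algebraMap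
  exact w'.ord_eq_zero_of_isAlgebraic (fun h => hm ((algebraMap M Ω).injective (by
    rw [h, map_zero]))) h1

theorem exists_indep_red {N : Type} [Field N] [Algebra ℂ N] (S' : Set N) {x' : Fin (n + 2) → N}
    (hF : F.IsHomogeneous d) (hd : 1 ≤ d) (hF0 : F ≠ 0) (hx : IsGen F x')
    (hfin : FiniteDimensional (ratioField x') N)
    (halg : ∀ i j, IsAlgebraic (IntermediateField.adjoin ℂ S') (x' i / x' j)) :
    ∃ z : Fin n → N, (∀ i, z i ∈ S') ∧ AlgebraicIndependent ℂ z := by
  have hN : Algebra.IsAlgebraic (IntermediateField.adjoin ℂ S') N := by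
    refine ⟨fun y => ?_⟩
    have h1 : IsAlgebraic (ratioField x') y := Algebra.IsAlgebraic.isAlgebraic y
    have hle : ratioField x' ≤
        (algebraicClosure (IntermediateField.adjoin ℂ S') N).restrictScalars ℂ := by
      unfold ratioField
      rw [IntermediateField.adjoin_le_iff]
      rintro _ ⟨i, j, rfl⟩
      show _ ∈ algebraicClosure (IntermediateField.adjoin ℂ S') N
      rw [mem_algebraicClosure_iff]
      exact halg i j
    have h2 : IsAlgebraic (algebraicClosure (IntermediateField.adjoin ℂ S') N) y :=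
      IsAlgebraic.tower_top_of_subalgebra_le (A := (ratioField x').toSubalgebra)
        (B := ((algebraicClosure (IntermediateField.adjoin ℂ S') N).restrictScalars ℂ).toSubalgebra)
        hle h1
    exact h2.restrictScalars (IntermediateField.adjoin ℂ S')
  open scoped IntermediateField.algebraAdjoinAdjoin in
  have h4 : Algebra.IsAlgebraic (Algebra.adjoin ℂ S') (IntermediateField.adjoin ℂ S') :=
    inferInstance
  open scoped IntermediateField.algebraAdjoinAdjoin in
  have h5 : Algebra.IsAlgebraic (Algebra.adjoin ℂ S') N :=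
    Algebra.IsAlgebraic.trans (Algebra.adjoin ℂ S') (IntermediateField.adjoin ℂ S') N
  obtain ⟨t, ht, hbas⟩ := exists_isTranscendenceBasis_subset (R := ℂ) (A := N) S'
  obtain ⟨j, -, hu⟩ := exists_indep' hF hd hF0 hx.2
  have h6 := hu.cardinalMk_le_trdeg
  rw [← hbas.cardinalMk_eq_trdeg, Cardinal.le_def] at h6
  obtain ⟨e⟩ := h6
  exact ⟨fun i => (e i : N), fun i => ht (e i).2, hbas.1.comp e e.injective⟩

/-! ### decomposition of the line at a place -/

section dec

variable {M Ω : Type} [Field M] [Field Ω] [Algebra ℂ M] [Algebra M Ω] [Algebra ℂ Ω]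
  [IsScalarTower ℂ M Ω]

theorem dec (w : Place ℂ Ω) {x lam : Fin (n + 2) → M} (hx : ∀ i, x i ≠ 0)
    (hl : LinearIndependent M ![x, lam]) (s : Ω) (h0 : pt x lam s 0 ≠ 0)
    (hreg : ∀ i, w.Reg (pt x lam s i / pt x lam s 0)) :
    ∃ (a b : Fin (n + 2) → M) (α β : Ω) (j₀ j₁ : Fin (n + 2)),
      (∀ i, w.Reg (algebraMap M Ω (a i))) ∧ (∀ i, w.Reg (algebraMap M Ω (b i))) ∧
      a j₀ = 1 ∧ b j₀ = 0 ∧ b j₁ = 1 ∧ w.Reg α ∧ w.Reg β ∧
      ∀ i, pt x lam s i / pt x lam s 0 =
        α * algebraMap M Ω (a i) + β * algebraMap M Ω (b i) := by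
  classical
  obtain ⟨j₀, -, hj₀⟩ := Finset.exists_min_image (Finset.univ : Finset (Fin (n + 2)))
    (fun i => w.ord (algebraMap M Ω (x i))) ⟨0, Finset.mem_univ _⟩
  let a : Fin (n + 2) → M := fun i => x i / x j₀
  let b' : Fin (n + 2) → M := fun i => lam i - lam j₀ * a i
  have ha : a j₀ = 1 := div_self (hx j₀)
  have hb' : b' j₀ = 0 := by
    simp only [b', ha]
    ring
  obtain ⟨j₂, hj₂⟩ : ∃ j, b' j ≠ 0 := by
    by_contra hcon
    push Not at hcon
    have h1 : LinearIndependent M ![x, lam] := hl
    rw [LinearIndependent.pair_iff] at h1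
    have h2 := h1 (-(lam j₀ / x j₀)) 1 (by
      funext i
      have h3 := hcon i
      simp only [b', a] at h3
      simp only [Pi.add_apply, Pi.smul_apply, smul_eq_mul, Pi.zero_apply]
      linear_combination h3)
    exact one_ne_zero h2.2
  obtain ⟨j₁, hj₁m, hj₁⟩ := Finset.exists_min_image
    (Finset.univ.filter fun j => b' j ≠ 0) (fun i => w.ord (algebraMap M Ω (b' i)))
    ⟨j₂, by simp [hj₂]⟩
  have hb1 : b' j₁ ≠ 0 := (Finset.mem_filter.1 hj₁m).2
  have hmne : ∀ m : M, m ≠ 0 → algebraMap M Ω m ≠ 0 := fun m hm h =>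
    hm ((algebraMap M Ω).injective (by rw [h, map_zero]))
  have hareg : ∀ i, w.Reg (algebraMap M Ω (a i)) := by
    intro i
    right
    have := hj₀ i (Finset.mem_univ _)
    simp only [a]
    rw [map_div₀, w.ord_div (hmne _ (hx i)) (hmne _ (hx j₀))]
    omega
  have hbreg : ∀ i, w.Reg (algebraMap M Ω (b' i / b' j₁)) := by
    intro i
    by_cases hi : b' i = 0
    · left
      rw [hi, zero_div, map_zero]
    · right
      have := hj₁ i (by simp [hi])
      rw [map_div₀, w.ord_div (hmne _ hi) (hmne _ hb1)]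
      omega
  have hdec : ∀ i, pt x lam s i / pt x lam s 0 =
      (pt x lam s j₀ / pt x lam s 0) * algebraMap M Ω (a i) +
        (s * algebraMap M Ω (b' j₁) / pt x lam s 0) * algebraMap M Ω (b' i / b' j₁) := by
    intro i
    have h1 : algebraMap M Ω (b' i / b' j₁) = algebraMap M Ω (b' i) / algebraMap M Ω (b' j₁) :=
      map_div₀ _ _ _
    have h2 : algebraMap M Ω (b' i) = algebraMap M Ω (lam i) -
        algebraMap M Ω (lam j₀) * algebraMap M Ω (a i) := by
      simp only [b', map_sub, map_mul]
    have h3 : algebraMap M Ω (x i) = algebraMap M Ω (x j₀) * algebraMap M Ω (a i) := by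
      rw [← map_mul]
      congr 1
      simp only [a]
      rw [mul_div_cancel₀ _ (hx j₀)]
    have h4 := hmne _ hb1
    have h5 : pt x lam s i = pt x lam s j₀ * algebraMap M Ω (a i) +
        s * algebraMap M Ω (b' i) := by
      rw [h2]
      simp only [pt]
      rw [h3]
      ring
    rw [h1, h5]
    field_simp
  refine ⟨a, fun i => b' i / b' j₁, pt x lam s j₀ / pt x lam s 0,
    s * algebraMap M Ω (b' j₁) / pt x lam s 0, j₀, j₁, hareg, hbreg, ha,
    by show b' j₀ / b' j₁ = 0; rw [hb', zero_div], div_self hb1, hreg j₀, ?_, hdec⟩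
  have h6 := hdec j₁
  rw [div_self hb1, map_one, mul_one] at h6
  have h7 : s * algebraMap M Ω (b' j₁) / pt x lam s 0 = pt x lam s j₁ / pt x lam s 0 -
      (pt x lam s j₀ / pt x lam s 0) * algebraMap M Ω (a j₁) := by
    rw [h6]
    ring
  rw [h7, sub_eq_add_neg]
  exact w.reg_add (hreg j₁) (w.reg_neg (w.reg_mul (hreg j₀) (hareg j₁)))

/-- the places over the generic point of the hypersurface which are not trivial on the base -/
theorem vert (hF : F.IsHomogeneous d) (hd : 2 ≤ d)
    (hsm : ∀ z : Fin (n + 2) → ℂ, (∀ i, eval z (pderiv i F) = 0) → z = 0)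
    (hM : Algebra.trdeg ℂ M ≤ n) (w : Place ℂ Ω) {x lam : Fin (n + 2) → M}
    (hx : IsGen F x) (hl : LinearIndependent M ![x, lam]) (s : Ω) (h0 : pt x lam s 0 ≠ 0)
    (hw : Good (pt x lam s) x w) (hfin : FiniteDimensional (ratioField (rpt w (pt x lam s))) w.RF)
    {m : M} (hm : m ≠ 0) (hmo : w.ord (algebraMap M Ω m) ≠ 0) :
    d - 1 ∣ finrank (ratioField (rpt w (pt x lam s))) w.RF := by
  classical
  have hF0 : F ≠ 0 := ne_zero_of_smooth (m := n + 1) hsm
  have hxne : ∀ i, x i ≠ 0 := coord_ne hF hd hx hF0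
  have hreg : ∀ i, w.Reg (pt x lam s i / pt x lam s 0) := by
    intro i
    refine Fin.cases ?_ (fun j => hw.1 j) i
    rw [div_self h0]
    exact w.reg_one
  obtain ⟨a, b, α, β, j₀, j₁, ha, hb, ha0, hb0, hb1, hα, hβ, hdec⟩ := dec w hxne hl s h0 hreg
  have hgen : IsGen F (rpt w (pt x lam s)) := isGen_rpt h0 hF (hxne 0) hx hw
  set x' : Fin (n + 2) → w.RF := rpt w (pt x lam s) with hx'
  have hx'i : ∀ i, x' i = w.red α * w.red (algebraMap M Ω (a i)) +
      w.red β * w.red (algebraMap M Ω (b i)) := by
    intro i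
    show w.red (pt x lam s i / pt x lam s 0) = _
    rw [hdec i, w.red_add (w.reg_mul hα (ha i)) (w.reg_mul hβ (hb i)), w.red_mul hα (ha i),
      w.red_mul hβ (hb i)]
  have hx'0 : x' 0 = 1 := rpt_zero w h0
  -- contradiction if the ratios are algebraic
  have hno : ¬ ∀ i j, IsAlgebraic (IntermediateField.adjoin ℂ
      {z : w.RF | ∃ m : M, w.Reg (algebraMap M Ω m) ∧ z = w.red (algebraMap M Ω m)})
      (x' i / x' j) := by
    intro halg
    obtain ⟨z, hz, hzi⟩ := exists_indep_red _ hF (by omega) hF0 hgen hfin halg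
    choose y hy hzy using hz
    have h1 : z = fun i => w.red (algebraMap M Ω (y i)) := funext hzy
    rw [h1] at hzi
    exact hmo (triv_of_indep hM w y hy hzi m hm)
  set E₀ : IntermediateField ℂ w.RF := IntermediateField.adjoin ℂ
      {z : w.RF | ∃ m : M, w.Reg (algebraMap M Ω m) ∧ z = w.red (algebraMap M Ω m)} with hE₀
  have haE : ∀ i, w.red (algebraMap M Ω (a i)) ∈ E₀ := fun i =>
    IntermediateField.subset_adjoin _ _ ⟨a i, ha i, rfl⟩
  have hbE : ∀ i, w.red (algebraMap M Ω (b i)) ∈ E₀ := fun i =>
    IntermediateField.subset_adjoin _ _ ⟨b i, hb i, rfl⟩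
  have halgE : ∀ z : w.RF, z ∈ E₀ → IsAlgebraic E₀ z := fun z hz =>
    isAlgebraic_algebraMap (⟨z, hz⟩ : E₀)
  by_cases hα0 : w.red α = 0
  · exfalso
    apply hno
    intro i j
    have h1 : ∀ i, x' i = w.red β * w.red (algebraMap M Ω (b i)) := by
      intro i
      rw [hx'i, hα0, zero_mul, zero_add]
    have hβ0 : w.red β ≠ 0 := by
      intro h
      have h2 := h1 0
      rw [hx'0, h, zero_mul] at h2
      exact one_ne_zero h2
    rw [h1 i, h1 j, mul_div_mul_left _ _ hβ0]
    exact halgE _ (div_mem (hbE i) (hbE j))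
  · let ρ : w.RF := w.red β / w.red α
    let aE : Fin (n + 2) → E₀ := fun i => ⟨w.red (algebraMap M Ω (a i)), haE i⟩
    let bE : Fin (n + 2) → E₀ := fun i => ⟨w.red (algebraMap M Ω (b i)), hbE i⟩
    have hx2 : ∀ i, x' i = w.red α * pt aE bE ρ i := by
      intro i
      rw [hx'i]
      show _ = w.red α * (w.red (algebraMap M Ω (a i)) + ρ * w.red (algebraMap M Ω (b i)))
      simp only [ρ]
      field_simp
    by_cases hG : bin F aE bE = 0
    · -- the line lies in the hypersurface
      have hG' : bin F (fun i => w.red (algebraMap M Ω (a i)))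
          (fun i => w.red (algebraMap M Ω (b i))) = 0 := by
        have h1 := aeval_line (R := Polynomial w.RF) aE bE Polynomial.X F
        rw [hG, map_zero] at h1
        exact h1
      have h2 := bin_shift hF _ _ (w.red α) (w.red β) hα0 hG'
      have h3 : LinearIndependent w.RF ![x', fun i => w.red (algebraMap M Ω (b i))] := by
        rw [LinearIndependent.pair_iff]
        intro c e hce
        have h4 := congrFun hce j₀
        have h5 := congrFun hce j₁
        simp only [Pi.add_apply, Pi.smul_apply, smul_eq_mul, Pi.zero_apply] at h4 h5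
        rw [hx'i, ha0, hb0, map_one, map_zero, w.red_one, w.red_zero] at h4
        have hc : c = 0 := by
          have h6 : c * w.red α = 0 := by linear_combination h4
          exact (mul_eq_zero.1 h6).resolve_right hα0
        rw [hc, hb1, map_one, w.red_one] at h5
        exact ⟨hc, by linear_combination h5⟩
      refine contact (r := n + 1) hF hd hsm x' hgen.1 hgen.2 _ h3 0 ?_
      rw [map_zero, zero_mul]
      have h6 : x' = fun j => w.red α * w.red (algebraMap M Ω (a j)) +
          w.red β * w.red (algebraMap M Ω (b j)) := funext hx'i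
      rw [h6]
      exact h2
    · exfalso
      apply hno
      have hρ : IsAlgebraic E₀ ρ := by
        refine ⟨bin F aE bE, hG, ?_⟩
        rw [← aeval_pt]
        have h1 := hgen.1
        rw [funext hx2, aeval_smul_form hF] at h1
        exact (mul_eq_zero.1 h1).resolve_left (pow_ne_zero _ hα0)
      intro i j
      have h1 : ∀ i, IsAlgebraic E₀ (pt aE bE ρ i) := fun i =>
        (halgE _ (haE i)).add (hρ.mul (halgE _ (hbE i)))
      rw [hx2 i, hx2 j, mul_div_mul_left _ _ hα0, div_eq_mul_inv]
      exact (h1 i).mul (h1 j).inv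

end dec

end

end Pool.Agent.Q35.PL
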