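import Mathlib
import Pool.Agent.Q35.PL.Vert

/-! # Parity of families of lines: the places which are trivial on the base -/

set_option autoImplicit false

namespace Pool.Agent.Q35.PL

open MvPolynomial Pool.Agent.TH314.PD Module FF Pool.Agent.Y201.LI

noncomputable section

variable {n d : ℕ} {F : MvPolynomial (Fin (n + 2)) ℂ}

/-! ### ratio fields -/

lemma ratio_smul {m : ℕ} {K : Type} [Field K] [Algebra ℂ K] (x : Fin m → K) {c : K} (hc : c ≠ 0) :
    ratioField (fun i => c * x i) = ratioField x := by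
  unfold ratioField
  congr 1
  ext z
  simp only [Set.mem_ofPred_eq]
  constructor
  · rintro ⟨i, j, rfl⟩
    exact ⟨i, j, by rw [mul_div_mul_left _ _ hc]⟩
  · rintro ⟨i, j, rfl⟩
    exact ⟨i, j, by rw [mul_div_mul_left _ _ hc]⟩

lemma ratio_equiv {m : ℕ} {K N : Type} [Field K] [Field N] [Algebra ℂ K] [Algebra ℂ N]
    (e : K ≃ₐ[ℂ] N) (x : Fin m → K) :
    finrank (ratioField x) K = finrank (ratioField fun i => e (x i)) N := by
  have h1 : (ratioField x).map (e : K →ₐ[ℂ] N) = ratioField fun i => e (x i) := by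
    unfold ratioField
    rw [IntermediateField.adjoin_map]
    congr 1
    ext z
    simp only [Set.mem_image, Set.mem_ofPred_eq]
    constructor
    · rintro ⟨_, ⟨i, j, rfl⟩, rfl⟩
      exact ⟨i, j, by simp⟩
    · rintro ⟨i, j, rfl⟩
      exact ⟨_, ⟨i, j, rfl⟩, by simp⟩
  rw [← h1]
  refine Algebra.finrank_eq_of_equiv_equiv
    (IntermediateField.intermediateFieldMap e (ratioField x)).toRingEquiv e.toRingEquiv ?_
  ext z
  rfl

section places

variable {M Ω : Type} [Field M] [Field Ω] [Algebra ℂ M] [Algebra M Ω] [Algebra ℂ Ω]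
  [IsScalarTower ℂ M Ω]

/-- a place over the base as a place over the complex numbers -/
def ofM (w : Place M Ω) : Place ℂ Ω where
  ord := w.ord
  ord_zero := w.ord_zero
  ord_mul := w.ord_mul
  ord_add := w.ord_add
  ord_const := by
    intro c hc
    rw [IsScalarTower.algebraMap_apply ℂ M Ω]
    exact w.ord_const (by simpa using hc)
  surj := w.surj

/-- a place which is trivial on the base -/
def toM (w : Place ℂ Ω) (h : ∀ m : M, m ≠ 0 → w.ord (algebraMap M Ω m) = 0) : Place M Ω where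
  ord := w.ord
  ord_zero := w.ord_zero
  ord_mul := w.ord_mul
  ord_add := w.ord_add
  ord_const := fun {c} hc => h c hc
  surj := w.surj

lemma ofM_toM (w : Place ℂ Ω) (h : ∀ m : M, m ≠ 0 → w.ord (algebraMap M Ω m) = 0) :
    ofM (toM w h) = w := rfl

/-- the place at a rational point of the line -/
theorem unique_place (s : Ω) (hs : Transcendental M s)
    (htop : IntermediateField.adjoin M {s} = ⊤) :
    ∃ w₀ : Place M Ω, w₀.ord s = 1 ∧ finrank M w₀.RF = 1 ∧
      ∀ w : Place M Ω, 0 < w.ord s → w = w₀ := by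
  have hchar : CharZero M := charZero_of_injective_algebraMap (algebraMap ℂ M).injective
  have hff : IsFF M Ω := IsFF.of_finite hs (fin_top htop)
  obtain ⟨S, hS1, hS2, hS3⟩ := zeros (k := M) (K := Ω) hs
  have h1 : finrank (IntermediateField.adjoin M {s}) Ω = 1 := by
    rw [htop, IntermediateField.finrank_top]
  rw [h1] at hS3
  have hpos : ∀ w ∈ S, 1 ≤ (w.ord s).toNat * w.deg := by
    intro w hw
    have h2 := (hS1 w).1 hw
    have h3 := hS2 w hw
    exact Nat.mul_pos (by omega) h3
  have hcard : S.card ≤ 1 := by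
    have := Finset.sum_le_sum hpos
    rw [hS3, Finset.sum_const, smul_eq_mul, mul_one] at this
    exact this
  have hne : S.Nonempty := by
    by_contra hne
    rw [Finset.not_nonempty_iff_eq_empty] at hne
    rw [hne, Finset.sum_empty] at hS3
    exact zero_ne_one hS3
  obtain ⟨w₀, hw₀⟩ := hne
  have hS : S = {w₀} := by
    rw [Finset.card_le_one] at hcard
    ext w
    rw [Finset.mem_singleton]
    exact ⟨fun h => hcard w h w₀ hw₀, fun h => h ▸ hw₀⟩
  rw [hS, Finset.sum_singleton] at hS3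
  have h4 := Nat.eq_one_of_mul_eq_one_right hS3
  have h5 := Nat.eq_one_of_mul_eq_one_left hS3
  refine ⟨w₀, by omega, h5, fun w hw => ?_⟩
  have := (hS1 w).2 hw
  rw [hS, Finset.mem_singleton] at this
  exact this

lemma pt_zero_reg (w : Place ℂ Ω) (htr : ∀ m : M, m ≠ 0 → w.ord (algebraMap M Ω m) = 0)
    (x lam : Fin (n + 2) → M) {s : Ω} (hs : w.Reg s) (i : Fin (n + 2)) :
    w.Reg (pt x lam s i) ∧ w.red (pt x lam s i) = w.red (algebraMap M Ω (x i)) +
      w.red s * w.red (algebraMap M Ω (lam i)) := by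
  have hreg : ∀ m : M, w.Reg (algebraMap M Ω m) := by
    intro m
    by_cases hm : m = 0
    · left
      rw [hm, map_zero]
    · right
      rw [htr m hm]
  refine ⟨w.reg_add (hreg _) (w.reg_mul hs (hreg _)), ?_⟩
  show w.red (algebraMap M Ω (x i) + s * algebraMap M Ω (lam i)) = _
  rw [w.red_add (hreg _) (w.reg_mul hs (hreg _)), w.red_mul hs (hreg _)]

/-- the first coordinate is a unit -/
theorem unit0 (w : Place ℂ Ω) (htr : ∀ m : M, m ≠ 0 → w.ord (algebraMap M Ω m) = 0)
    {x lam : Fin (n + 2) → M} (hl : LinearIndependent M ![x, lam]) {s : Ω} (hs : w.Reg s)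
    (h0 : pt x lam s 0 ≠ 0) (hreg : ∀ j, w.Reg (aff (pt x lam s) j)) :
    w.ord (pt x lam s 0) = 0 := by
  by_contra hne
  have h1 := (pt_zero_reg w htr x lam hs 0).1
  have h2 : w.red (pt x lam s 0) = 0 := by
    rw [w.red_eq_zero_iff h1]
    have := (w.reg_iff h0).1 h1
    exact Or.inr (by omega)
  have hregM : ∀ m : M, w.Reg (algebraMap M Ω m) := by
    intro m
    by_cases hm : m = 0
    · left
      rw [hm, map_zero]
    · right
      rw [htr m hm]
  have h3 : ∀ i, w.red (pt x lam s i) = 0 := by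
    intro i
    refine Fin.cases h2 (fun j => ?_) i
    have h4 : pt x lam s j.succ = aff (pt x lam s) j * pt x lam s 0 := by
      unfold aff
      rw [div_mul_cancel₀ _ h0]
    rw [h4, w.red_mul (hreg j) h1, h2, mul_zero]
  have h5 : ∀ i, w.red (algebraMap M Ω (x i)) = - w.red s * w.red (algebraMap M Ω (lam i)) := by
    intro i
    have := h3 i
    rw [(pt_zero_reg w htr x lam hs i).2] at this
    linear_combination this
  have h6 : ∀ i j, x i * lam j = x j * lam i := by
    intro i j
    by_contra hcon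
    have h7 : x i * lam j - x j * lam i ≠ 0 := sub_ne_zero.2 hcon
    have h8 : algebraMap M Ω (x i * lam j - x j * lam i) ≠ 0 := fun h =>
      h7 ((algebraMap M Ω).injective (by rw [h, map_zero]))
    have h9 := w.red_ne_zero h8 (htr _ h7)
    apply h9
    rw [map_sub, map_mul, map_mul, w.red_sub (w.reg_mul (hregM _) (hregM _))
      (w.reg_mul (hregM _) (hregM _)), w.red_mul (hregM _) (hregM _), w.red_mul (hregM _) (hregM _),
      h5 i, h5 j]
    ring
  rw [LinearIndependent.pair_iff] at hl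
  obtain ⟨j, hj⟩ : ∃ j, lam j ≠ 0 := by
    by_contra hcon
    push Not at hcon
    have := hl 0 1 (by
      funext i
      simp [hcon i])
    exact one_ne_zero this.2
  have h10 := hl (lam j) (-(x j)) (by
    funext i
    simp only [Pi.add_apply, Pi.smul_apply, smul_eq_mul, Pi.zero_apply]
    linear_combination h6 i j)
  exact hj h10.1

/-- the place at the point `x` of the line -/
theorem zero_place {x : Fin (n + 2) → M} (lam : Fin (n + 2) → M) (hx0 : x 0 ≠ 0) {s : Ω}
    (hs : Transcendental M s) (htop : IntermediateField.adjoin M {s} = ⊤) :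
    ∃ w : Place ℂ Ω, w.ord s = 1 ∧ w.ord (pt x lam s 0) = 0 ∧
      (∀ m : M, m ≠ 0 → w.ord (algebraMap M Ω m) = 0) ∧
      (∀ w' : Place ℂ Ω, (∀ m : M, m ≠ 0 → w'.ord (algebraMap M Ω m) = 0) →
        0 < w'.ord s → w' = w) ∧ (∀ j, w.Reg (aff (pt x lam s) j)) ∧
      ∃ e : M ≃ₐ[ℂ] w.RF, ∀ i, rpt w (pt x lam s) i = e (x i / x 0) := by
  obtain ⟨w₀, hw1, hw2, hw3⟩ := unique_place s hs htop
  have hsurj₀ : ∀ z : w₀.RF, ∃ m : M, algebraMap M w₀.RF m = z := by
    intro z
    have h1 := Subalgebra.bot_eq_top_of_finrank_eq_one hw2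
    have h2 : z ∈ (⊥ : Subalgebra M w₀.RF) := by
      rw [h1]
      exact Algebra.mem_top
    exact Algebra.mem_bot.1 h2
  have htr : ∀ m : M, m ≠ 0 → (ofM w₀ : Place ℂ Ω).ord (algebraMap M Ω m) = 0 := fun m hm =>
    w₀.ord_const hm
  set w : Place ℂ Ω := ofM w₀ with hw
  have hs1 : w.ord s = 1 := hw1
  have hs0 : s ≠ 0 := by
    rintro rfl
    exact hs isAlgebraic_zero
  have hsr : w.Reg s := Or.inr (by omega)
  have hsz : w.red s = 0 := (w.red_eq_zero_iff hsr).2 (Or.inr (by omega))
  have hregM : ∀ m : M, w.Reg (algebraMap M Ω m) := w₀.reg_const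
  -- the residue field
  let e₀ : M →ₐ[ℂ] w.RF :=
    { w.redHom (algebraMap M Ω) hregM with
      commutes' := by
        intro c
        show w.red (algebraMap M Ω (algebraMap ℂ M c)) = _
        rw [← IsScalarTower.algebraMap_apply]
        rfl }
  have he₀ : ∀ m, e₀ m = w.red (algebraMap M Ω m) := fun m => rfl
  have hsurj : Function.Surjective e₀ := by
    intro z
    obtain ⟨m, hm⟩ := hsurj₀ z
    exact ⟨m, hm⟩
  let e : M ≃ₐ[ℂ] w.RF := AlgEquiv.ofBijective e₀ ⟨e₀.toRingHom.injective, hsurj⟩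
  have he : ∀ m, e m = w.red (algebraMap M Ω m) := fun m => rfl
  have hp : ∀ i, w.Reg (pt x lam s i) ∧ w.red (pt x lam s i) = e (x i) := by
    intro i
    obtain ⟨h1, h2⟩ := pt_zero_reg w htr x lam hsr i
    refine ⟨h1, ?_⟩
    rw [h2, hsz, zero_mul, add_zero, he]
  have hp0 : w.red (pt x lam s 0) ≠ 0 := by
    rw [(hp 0).2]
    exact fun h => hx0 (e.injective (by rw [h, map_zero]))
  refine ⟨w, hs1, ?_, htr, ?_, fun j => (reg_div w (hp _).1 (hp 0).1 hp0).1, e, fun i => ?_⟩
  · by_contra hne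
    have h1 : pt x lam s 0 ≠ 0 := pt_ne hs hx0
    have h2 := (w.reg_iff h1).1 (hp 0).1
    exact hp0 ((w.red_eq_zero_iff (hp 0).1).2 (Or.inr (by omega)))
  · intro w' hw' hs'
    have := hw3 (toM w' hw') hs'
    rw [hw, ← this, ofM_toM]
  · show w.red (pt x lam s i / pt x lam s 0) = _
    rw [(reg_div w (hp i).1 (hp 0).1 hp0).2, (hp i).2, (hp 0).2, map_div₀]

end places

end

end Pool.Agent.Q35.PL
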