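import Mathlib
import Pool.Agent.Q35.PL.Triv

/-! # Parity of families of lines: the law for lines of contact -/

set_option autoImplicit false

namespace Pool.Agent.Q35.PL

open MvPolynomial Pool.Agent.TH314.PD Module FF Pool.Agent.Y201.LI

noncomputable section

variable {n d : ℕ} {F : MvPolynomial (Fin (n + 2)) ℂ} {M Ω : Type} [Field M] [Field Ω]
  [Algebra ℂ M] [Algebra M Ω] [Algebra ℂ Ω] [IsScalarTower ℂ M Ω]

/-- everything which is known about the generic point of a family of lines -/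
theorem setup (hF : F.IsHomogeneous d) (hd : 2 ≤ d) {x : Fin (n + 2) → M}
    (hx : IsGen F x) (hF0 : F ≠ 0) (hfd : FiniteDimensional (ratioField x) M)
    {lam : Fin (n + 2) → M} {s : Ω} (hs : Transcendental M s)
    (htop : IntermediateField.adjoin M {s} = ⊤) (hFp : aeval (pt x lam s) F ≠ 0) :
    Algebra.trdeg ℂ M ≤ n ∧ pt x lam s 0 ≠ 0 ∧ AlgebraicIndependent ℂ (aff (pt x lam s)) ∧
      FiniteDimensional (ratioField (pt x lam s)) Ω ∧
    ∃ S : Finset (Place ℂ Ω), (∀ w, w ∈ S ↔ Good (pt x lam s) x w) ∧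
      (∀ w ∈ S, 0 < finrank (ratioField (rpt w (pt x lam s))) w.RF) ∧
      ∑ w ∈ S, (w.ord (aeval (aff (pt x lam s)) (deh F))).toNat *
        finrank (ratioField (rpt w (pt x lam s))) w.RF = finrank (ratioField (pt x lam s)) Ω := by
  have hxne : ∀ i, x i ≠ 0 := coord_ne hF hd hx hF0
  have hb : bin F x lam ≠ 0 := by
    intro h
    apply hFp
    rw [aeval_pt, h, map_zero]
  have h0 : pt x lam s 0 ≠ 0 := pt_ne hs (hxne 0)
  have hM : Algebra.trdeg ℂ M ≤ n := trdeg_le hF hx.1 (hxne 0) (deh_ne h0 hF hFp) hfd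
  have hind := inj_aff h0 (gen_pt hs hF hd hx hb)
  have hfin := fin_line hfd hM htop h0 hind
  exact ⟨hM, h0, hind, hfin, places hF hx (hxne 0) h0 hind hFp hfin⟩

lemma ord_pi (hF : F.IsHomogeneous d) (w : Place ℂ Ω) {p : Fin (n + 2) → Ω} (h0 : p 0 ≠ 0)
    (hFp : aeval p F ≠ 0) :
    w.ord (aeval (aff p) (deh F)) = w.ord (aeval p F) - d * w.ord (p 0) := by
  have h1 := aeval_aff p h0 hF
  have h2 : aeval (aff p) (deh F) ≠ 0 := fun h => hFp ((aeval_aff_eq_zero p h0 hF).1 h)
  rw [h1, w.ord_mul (pow_ne_zero _ h0) h2, w.ord_pow]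
  ring

lemma good_pos (hF : F.IsHomogeneous d) (w : Place ℂ Ω) {p : Fin (n + 2) → Ω} (h0 : p 0 ≠ 0)
    (hFp : aeval p F ≠ 0) {x : Fin (n + 2) → M} (hx : IsGen F x) (hx0 : x 0 ≠ 0)
    (hw : Good p x w) : 0 < w.ord (aeval (aff p) (deh F)) := by
  have h2 : aeval (aff p) (deh F) ≠ 0 := fun h => hFp ((aeval_aff_eq_zero p h0 hF).1 h)
  obtain ⟨h3, h4⟩ := red_aeval w (aff p) hw.1 (deh F)
  have h5 : w.red (aeval (aff p) (deh F)) = 0 := by
    rw [h4]
    exact (hw.2 _).2 (deh_zero hF hx hx0)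
  exact ((w.red_eq_zero_iff h3).1 h5).resolve_left h2

lemma pt_inv (x lam : Fin (n + 2) → M) {s : Ω} (hs : s ≠ 0) (i : Fin (n + 2)) :
    pt x lam s i = s * pt lam x s⁻¹ i := by
  unfold pt
  rw [mul_add, ← mul_assoc, mul_inv_cancel₀ hs]
  ring

lemma aff_inv (x lam : Fin (n + 2) → M) {s : Ω} (hs : s ≠ 0) :
    aff (pt x lam s) = aff (pt lam x s⁻¹) := by
  funext j
  unfold aff
  rw [pt_inv x lam hs, pt_inv x lam hs, mul_div_mul_left _ _ hs]

/-- the law for lines of contact -/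
theorem law1 (hF : F.IsHomogeneous d) (hd : 2 ≤ d)
    (hsm : ∀ z : Fin (n + 2) → ℂ, (∀ i, eval z (pderiv i F) = 0) → z = 0)
    {x : Fin (n + 2) → M} (hx : IsGen F x) (hfd : FiniteDimensional (ratioField x) M)
    {lam : Fin (n + 2) → M} (hl : LinearIndependent M ![x, lam]) {s : Ω}
    (hs : Transcendental M s) (htop : IntermediateField.adjoin M {s} = ⊤) {c : M} (hc : c ≠ 0)
    (hFc : aeval (pt x lam s) F = algebraMap M Ω c * s) :
    ∃ k, finrank (ratioField (pt x lam s)) Ω = (d - 1) * k + finrank (ratioField x) M := by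
  classical
  have hF0 : F ≠ 0 := ne_zero_of_smooth (m := n + 1) hsm
  have hxne : ∀ i, x i ≠ 0 := coord_ne hF hd hx hF0
  have hs0 : s ≠ 0 := by
    rintro rfl
    exact hs isAlgebraic_zero
  have hc' : algebraMap M Ω c ≠ 0 := fun h => hc ((algebraMap M Ω).injective (by rw [h, map_zero]))
  have hFp : aeval (pt x lam s) F ≠ 0 := by
    rw [hFc]
    exact mul_ne_zero hc' hs0
  obtain ⟨hM, h0, hind, hfin, S, hS, hSpos, hSum⟩ := setup hF hd hx hF0 hfd hs htop hFp
  obtain ⟨w₀, h1, h2, h3, h4, h5, e, h6⟩ := zero_place lam (hxne 0) hs htop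
  have hw₀ : Good (pt x lam s) x w₀ := by
    refine ⟨h5, fun g => ?_⟩
    have h7 : (fun j => w₀.red (aff (pt x lam s) j)) = fun j => e (aff x j) := by
      funext j
      exact h6 j.succ
    have h8 : aeval (fun j => e (aff x j)) g = e (aeval (aff x) g) := by
      have h9 : (aeval (fun j => e (aff x j)) : MvPolynomial (Fin (n + 1)) ℂ →ₐ[ℂ] w₀.RF) =
          (e : M →ₐ[ℂ] w₀.RF).comp (aeval (aff x)) := by
        apply algHom_ext
        intro i
        rw [AlgHom.comp_apply, aeval_X, aeval_X]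
        rfl
      rw [h9]
      rfl
    rw [h7, h8, map_eq_zero_iff e e.injective]
  have hfr : finrank (ratioField (rpt w₀ (pt x lam s))) w₀.RF = finrank (ratioField x) M := by
    have h7 : rpt w₀ (pt x lam s) = fun i => e ((x 0)⁻¹ * x i) := by
      funext i
      rw [h6, div_eq_inv_mul]
    rw [h7, ← ratio_equiv e fun i => (x 0)⁻¹ * x i, ratio_smul x (inv_ne_zero (hxne 0))]
  have hord : ∀ w : Place ℂ Ω, (∀ m : M, m ≠ 0 → w.ord (algebraMap M Ω m) = 0) →
      w.ord (aeval (aff (pt x lam s)) (deh F)) = w.ord s - d * w.ord (pt x lam s 0) := by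
    intro w hw
    rw [ord_pi hF w h0 hFp, hFc, w.ord_mul hc' hs0, hw c hc, zero_add]
  have hkey : ∀ w ∈ S, w ≠ w₀ → d - 1 ∣ (w.ord (aeval (aff (pt x lam s)) (deh F))).toNat *
      finrank (ratioField (rpt w (pt x lam s))) w.RF := by
    intro w hw hne
    have hg := (hS w).1 hw
    have hfdw : FiniteDimensional (ratioField (rpt w (pt x lam s))) w.RF :=
      .of_finrank_pos (hSpos w hw)
    by_cases hv : ∃ m : M, m ≠ 0 ∧ w.ord (algebraMap M Ω m) ≠ 0
    · obtain ⟨m, hm, hmo⟩ := hv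
      exact Dvd.dvd.mul_left (vert hF hd hsm hM w hx hl s h0 hg hfdw hm hmo) _
    · push Not at hv
      have hpos := good_pos hF w h0 hFp hx (hxne 0) hg
      by_cases hsr : w.Reg s
      · exfalso
        apply hne
        apply h4 w hv
        rw [hord w hv, unit0 w hv hl hsr h0 hg.1, mul_zero, sub_zero] at hpos
        exact hpos
      · apply Dvd.dvd.mul_right
        have hsneg : w.ord s < 0 := by
          by_contra hcon
          exact hsr (Or.inr (by omega))
        have hsr' : w.Reg s⁻¹ := Or.inr (by rw [w.ord_inv]; omega)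
        have hl' : LinearIndependent M ![lam, x] := by
          rw [LinearIndependent.pair_symm_iff]
          exact hl
        have h0' : pt lam x s⁻¹ 0 ≠ 0 := by
          intro h
          apply h0
          rw [pt_inv x lam hs0, h, mul_zero]
        have hu := unit0 w hv hl' hsr' h0' (by rw [← aff_inv x lam hs0]; exact hg.1)
        have hp0 : w.ord (pt x lam s 0) = w.ord s := by
          rw [pt_inv x lam hs0, w.ord_mul hs0 h0', hu, add_zero]
        rw [hord w hv, hp0]
        refine ⟨(-w.ord s).toNat, ?_⟩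
        obtain ⟨k, rfl⟩ : ∃ k, d = k + 1 := ⟨d - 1, by omega⟩
        rw [Nat.add_sub_cancel]
        have h7 : w.ord s - ((k + 1 : ℕ) : ℤ) * w.ord s = (k : ℤ) * (-w.ord s) := by
          push_cast
          ring
        rw [h7, Int.toNat_mul (by positivity) (by omega), Int.toNat_natCast]
  have hw₀S : w₀ ∈ S := (hS w₀).2 hw₀
  rw [← hSum, ← Finset.add_sum_erase S _ hw₀S, hfr, hord w₀ h3, h1, h2]
  have h8 : d - 1 ∣ ∑ w ∈ S.erase w₀, (w.ord (aeval (aff (pt x lam s)) (deh F))).toNat *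
      finrank (ratioField (rpt w (pt x lam s))) w.RF :=
    Finset.dvd_sum fun w hw => hkey w (Finset.mem_of_mem_erase hw) (Finset.ne_of_mem_erase hw)
  obtain ⟨k, hk⟩ := h8
  refine ⟨k, ?_⟩
  rw [hk]
  simp
  ring

end

end Pool.Agent.Q35.PL
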