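import Mathlib
import Pool.Agent.Q35.PL.Law
import Pool.Agent.Y929.LI.Fa

/-! # Parity of families of lines: sections of the polar bundle over the projective space -/

set_option autoImplicit false

namespace Pool.Agent.Q35.PL

open MvPolynomial Pool.Agent.TH314.PD Module FF Pool.Agent.Y201.LI Pool.Agent.Y929.LI

noncomputable section

variable {n d : ℕ} {F : MvPolynomial (Fin (n + 2)) ℂ} {Ω : Type} [Field Ω] [Algebra ℂ Ω]

lemma indep_gamma {E : Type} [Field E] [Algebra Ω E] [Algebra ℂ E] [IsScalarTower ℂ Ω E] {γ : E}
    (hγ : Transcendental Ω γ) {p : Fin (n + 2) → Ω}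
    (hp : ∀ (e : ℕ) (H : MvPolynomial (Fin (n + 2)) ℂ), H.IsHomogeneous e →
      aeval p H = 0 → H = 0) :
    AlgebraicIndependent ℂ fun i => γ * algebraMap Ω E (p i) := by
  rw [algebraicIndependent_iff]
  intro g hg
  let Q : Polynomial Ω := ∑ e ∈ Finset.range (g.totalDegree + 1),
    Polynomial.C (aeval p (homogeneousComponent e g)) * Polynomial.X ^ e
  have h1 : Polynomial.aeval γ Q = 0 := by
    rw [← hg]
    conv_rhs => rw [← sum_homogeneousComponent g]
    rw [map_sum, map_sum]
    refine Finset.sum_congr rfl fun e _ => ?_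
    have h2 : aeval (fun i => γ * algebraMap Ω E (p i)) (homogeneousComponent e g) =
        γ ^ e * aeval (fun i => algebraMap Ω E (p i)) (homogeneousComponent e g) :=
      aeval_smul_form (homogeneousComponent_isHomogeneous e g) _ _
    have h3 : aeval (fun i => algebraMap Ω E (p i)) (homogeneousComponent e g) =
        algebraMap Ω E (aeval p (homogeneousComponent e g)) := aeval_algebraMap_apply _ _ _
    rw [h2, h3, map_mul, Polynomial.aeval_C, map_pow, Polynomial.aeval_X]
    ring
  have h4 : Q = 0 := (transcendental_iff.1 hγ) _ h1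
  rw [← sum_homogeneousComponent g]
  refine Finset.sum_eq_zero fun e he => ?_
  apply hp e _ (homogeneousComponent_isHomogeneous e g)
  have h5 := congrArg (fun P => Polynomial.coeff P e) h4
  simp only [Q, Polynomial.finsetSum_coeff, Polynomial.coeff_C_mul, Polynomial.coeff_X_pow,
    Polynomial.coeff_zero] at h5
  rw [Finset.sum_eq_single e (fun e' _ hne => by rw [if_neg (Ne.symm hne), mul_zero])
    (fun h => absurd he h), if_pos rfl, mul_one] at h5
  exact h5

theorem one_pt (hF : F.IsHomogeneous d)
    (hsm : ∀ z : Fin (n + 2) → ℂ, (∀ i, eval z (pderiv i F) = 0) → z = 0)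
    {p : Fin (n + 2) → Ω} (h0 : p 0 ≠ 0)
    (hp : ∀ (e : ℕ) (H : MvPolynomial (Fin (n + 2)) ℂ), H.IsHomogeneous e →
      aeval p H = 0 → H = 0) (hfin : FiniteDimensional (ratioField p) Ω)
    {y : Fin (n + 2) → Ω} (hy : y ≠ 0) (hpy : ∑ i, p i * aeval y (pderiv i F) = 0) :
    d - 1 ∣ finrank (ratioField p) Ω := by
  classical
  have hΦ : Bpf ∅ (fun i => pderiv i F) := Pool.Agent.Y394.LI.bpf (n + 2) F hsm d hF
  -- normalize
  set q : Fin (n + 2) → Ω := fun i => (p 0)⁻¹ * p i with hq
  have hq0 : q 0 = 1 := inv_mul_cancel₀ h0
  have hrat : ratioField q = ratioField p := ratio_smul p (inv_ne_zero h0)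
  have hqg : ∀ (e : ℕ) (H : MvPolynomial (Fin (n + 2)) ℂ), H.IsHomogeneous e →
      aeval q H = 0 → H = 0 := by
    intro e H hH h
    apply hp e H hH
    rw [hq, aeval_smul_form hH] at h
    exact (mul_eq_zero.1 h).resolve_left (pow_ne_zero _ (inv_ne_zero h0))
  have hqy : ∑ i, q i * aeval y (pderiv i F) = 0 := by
    have h1 : ∀ i, q i * aeval y (pderiv i F) = (p 0)⁻¹ * (p i * aeval y (pderiv i F)) := by
      intro i
      rw [hq]
      ring
    rw [Finset.sum_congr rfl fun i _ => h1 i, ← Finset.mul_sum, hpy, mul_zero]
  rw [← hrat] at hfin ⊢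
  -- the field
  let E := FractionRing (Polynomial Ω)
  let γ : E := algebraMap (Polynomial Ω) E Polynomial.X
  have hγ : Transcendental Ω γ :=
    (transcendental_algebraMap_iff (IsFractionRing.injective (Polynomial Ω) E)).2
      (Polynomial.transcendental_X Ω)
  have htopγ : IntermediateField.adjoin Ω (Set.range fun _ : Unit => γ) = ⊤ := by
    rw [eq_top_iff]
    rintro z -
    obtain ⟨P, Q, -, rfl⟩ := IsFractionRing.div_surjective (A := Polynomial Ω) z
    have h1 : ∀ P : Polynomial Ω, algebraMap (Polynomial Ω) E P ∈
        IntermediateField.adjoin Ω (Set.range fun _ : Unit => γ) := by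
      intro P
      have h2 : algebraMap (Polynomial Ω) E P = Polynomial.aeval γ P := by
        rw [Polynomial.aeval_algebraMap_apply, Polynomial.aeval_X_left_apply]
      rw [h2]
      have h3 : γ ∈ IntermediateField.adjoin Ω (Set.range fun _ : Unit => γ) :=
        IntermediateField.subset_adjoin _ _ ⟨(), rfl⟩
      rw [Polynomial.aeval_eq_sum_range]
      exact sum_mem fun i _ => by
        rw [Algebra.smul_def]
        exact mul_mem (IntermediateField.algebraMap_mem _ _) (pow_mem h3 i)
    exact div_mem (h1 P) (h1 Q)
  have hindγ : AlgebraicIndependent Ω (fun _ : Unit => γ) := by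
    rw [algebraicIndependent_unique_type_iff]
    exact hγ
  have hchar : CharZero (ratioField q) :=
    charZero_of_injective_algebraMap (algebraMap ℂ (ratioField q)).injective
  obtain ⟨hE1, hE2⟩ := Pool.Agent.Y220.LI.ext (ratioField q) Ω E Unit (fun _ => γ) hindγ htopγ
  have hrγ : Set.range (fun _ : Unit => γ) = {γ} := Set.range_const
  rw [hrγ] at hE1 hE2
  -- the field generated by the point
  let v : Fin (n + 2) → E := fun i => γ * algebraMap Ω E (q i)
  have hv : AlgebraicIndependent ℂ v := indep_gamma hγ hqg
  let K := IntermediateField.adjoin ℂ (Set.range v)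
  let a : Fin (n + 2) → K := fun i => ⟨v i, IntermediateField.subset_adjoin _ _ ⟨i, rfl⟩⟩
  have hsame : ∀ z : E, z ∈ (IntermediateField.adjoin (ratioField q) {γ} :
      IntermediateField (ratioField q) E) ↔ z ∈ K := by
    have hγ0 : γ ≠ 0 := by
      intro h
      rw [h] at hγ
      exact hγ isAlgebraic_zero
    have hγK : γ ∈ K := by
      have h1 : v 0 = γ := by
        simp only [v]
        rw [hq0, map_one, mul_one]
      rw [← h1]
      exact IntermediateField.subset_adjoin _ _ ⟨0, rfl⟩
    have hqK : ∀ i, algebraMap Ω E (q i) ∈ K := by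
      intro i
      have h1 : algebraMap Ω E (q i) = v i / γ := by
        simp only [v]
        rw [mul_div_cancel_left₀ _ hγ0]
      rw [h1]
      exact div_mem (IntermediateField.subset_adjoin _ _ ⟨i, rfl⟩) hγK
    have hR : ∀ z : Ω, z ∈ ratioField q → algebraMap Ω E z ∈ K := by
      intro z hz
      unfold ratioField at hz
      induction hz using IntermediateField.adjoin_induction with
      | mem y hy =>
        obtain ⟨i, j, rfl⟩ := hy
        rw [map_div₀]
        exact div_mem (hqK i) (hqK j)
      | algebraMap c =>
        rw [← IsScalarTower.algebraMap_apply]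
        exact IntermediateField.algebraMap_mem _ _
      | add a b _ _ ha hb =>
        rw [map_add]
        exact add_mem ha hb
      | inv a _ ha =>
        rw [map_inv₀]
        exact inv_mem ha
      | mul a b _ _ ha hb =>
        rw [map_mul]
        exact mul_mem ha hb
    intro z
    constructor
    · intro hz
      induction hz using IntermediateField.adjoin_induction with
      | mem y hy =>
        rw [Set.mem_singleton_iff.1 hy]
        exact hγK
      | algebraMap c => exact hR (c : Ω) c.2
      | add a b _ _ ha hb => exact add_mem ha hb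
      | inv a _ ha => exact inv_mem ha
      | mul a b _ _ ha hb => exact mul_mem ha hb
    · intro hz
      have hqi : ∀ i, q i ∈ ratioField q := by
        intro i
        have h1 : q i = q i / q 0 := by rw [hq0, div_one]
        rw [h1]
        exact IntermediateField.subset_adjoin _ _ ⟨i, 0, rfl⟩
      induction hz using IntermediateField.adjoin_induction with
      | mem y hy =>
        obtain ⟨i, rfl⟩ := hy
        exact mul_mem (IntermediateField.mem_adjoin_simple_self _ _)
          (IntermediateField.algebraMap_mem (IntermediateField.adjoin (ratioField q) {γ})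
            (⟨q i, hqi i⟩ : ratioField q))
      | algebraMap c =>
        have h1 : algebraMap ℂ E c = algebraMap (ratioField q) E (algebraMap ℂ (ratioField q) c) := by
          rw [← IsScalarTower.algebraMap_apply]
        rw [h1]
        exact IntermediateField.algebraMap_mem _ _
      | add a b _ _ ha hb => exact add_mem ha hb
      | inv a _ ha => exact inv_mem ha
      | mul a b _ _ ha hb => exact mul_mem ha hb
  have hfr := finrank_same (A := (IntermediateField.adjoin (ratioField q) {γ} :
    IntermediateField (ratioField q) E)) (B := K) (Ω := E) (by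
      intro z
      constructor
      · rintro ⟨a, rfl⟩
        exact ⟨⟨(a : E), (hsame a).1 a.2⟩, rfl⟩
      · rintro ⟨a, rfl⟩
        exact ⟨⟨(a : E), (hsame a).2 a.2⟩, rfl⟩)
  have hKfin : FiniteDimensional K E := hfr.1.1 hE1
  rw [← hE2, hfr.2]
  have hAI : AlgebraicIndependent ℂ (Sum.elim a (fun i : Empty => (i.elim : K))) := by
    have h1 : AlgebraicIndependent ℂ a := by
      refine AlgebraicIndependent.of_comp K.val ?_
      exact hv
    have h2 := h1.comp (Equiv.sumEmpty (Fin (n + 2)) Empty) (Equiv.injective _)
    convert h2 using 1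
    funext i
    rcases i with i | i
    · rfl
    · exact i.elim
  have htop : IntermediateField.adjoin ℂ (Set.range a ∪ Set.range fun i : Empty => (i.elim : K)) =
      ⊤ := by
    rw [Set.range_eq_empty (fun i : Empty => (i.elim : K)), Set.union_empty]
    apply Pool.Agent.Y929.LI.adjoin_top
    rw [← Set.range_comp]
    rfl
  refine hone ℂ (n + 2) (d - 1) (n + 2) ∅ (fun i => pderiv i F)
    (fun G hG => absurd hG (Set.notMem_empty G)) (fun i => hF.pderiv) hΦ Empty K E a
    (fun i => i.elim) hAI htop (fun i => algebraMap Ω E (y i)) ?_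
    (fun G hG => absurd hG (Set.notMem_empty G)) ?_
  · intro h
    apply hy
    funext i
    have := congrFun h i
    exact (algebraMap Ω E).injective (by rw [this]; simp)
  · have h1 : ∀ i, algebraMap K E (a i) *
        eval₂ ((algebraMap K E).comp (algebraMap ℂ K)) (fun i => algebraMap Ω E (y i))
          (pderiv i F) = γ * algebraMap Ω E (q i * aeval y (pderiv i F)) := by
      intro i
      have h2 : eval₂ ((algebraMap K E).comp (algebraMap ℂ K)) (fun i => algebraMap Ω E (y i))
          (pderiv i F) = algebraMap Ω E (aeval y (pderiv i F)) := by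
        have h3 : (algebraMap K E).comp (algebraMap ℂ K) = algebraMap ℂ E := rfl
        rw [h3, ← aeval_algebraMap_apply]
        rfl
      rw [h2, map_mul, ← mul_assoc]
      rfl
    rw [Finset.sum_congr rfl fun i _ => h1 i, ← Finset.mul_sum, ← map_sum, hqy, map_zero, mul_zero]

end

end Pool.Agent.Q35.PL
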