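import Mathlib
import Pool.Agent.Q35.PL.One

/-! # Parity of families of lines: the general law -/

set_option autoImplicit false

namespace Pool.Agent.Q35.PL

open MvPolynomial Pool.Agent.TH314.PD Module FF Pool.Agent.Y201.LI

noncomputable section

variable {n d : ℕ} {F : MvPolynomial (Fin (n + 2)) ℂ} {M Ω : Type} [Field M] [Field Ω]
  [Algebra ℂ M] [Algebra M Ω] [Algebra ℂ Ω] [IsScalarTower ℂ M Ω]

open Classical in
/-- the degree of the point `z` of the hypersurface: the degree of `M` over the field of the point,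
if it is a generic point, and zero otherwise -/
def dg (F : MvPolynomial (Fin (n + 2)) ℂ) {M : Type} [Field M] [Algebra ℂ M]
    (z : Fin (n + 2) → M) : ℕ :=
  if IsGen F z then finrank (ratioField z) M else 0

/-- the place is trivial on the base -/
def Triv (M : Type) {Ω : Type} [Field M] [Field Ω] [Algebra M Ω] [Algebra ℂ Ω]
    (w : Place ℂ Ω) : Prop := ∀ m : M, m ≠ 0 → w.ord (algebraMap M Ω m) = 0

lemma red_comp {K : Type} [Field K] [Algebra ℂ K] {N : Type} [Field N] [Algebra ℂ N]
    (e : K ≃ₐ[ℂ] N) {ι : Type} (u : ι → K) (g : MvPolynomial ι ℂ) :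
    aeval (fun j => e (u j)) g = e (aeval u g) := by
  have h9 : (aeval (fun j => e (u j)) : MvPolynomial ι ℂ →ₐ[ℂ] N) =
      (e : K →ₐ[ℂ] N).comp (aeval u) := by
    apply algHom_ext
    intro i
    rw [AlgHom.comp_apply, aeval_X, aeval_X]
    rfl
  rw [h9]
  rfl

lemma gen_iff_dvd (hF : F.IsHomogeneous d) {x : Fin (n + 2) → M} (hx : IsGen F x)
    (hx0 : x 0 ≠ 0) (g : MvPolynomial (Fin (n + 1)) ℂ) : deh F ∣ g ↔ aeval (aff x) g = 0 := by
  refine ⟨?_, ker_dvd hx hx0⟩
  rintro ⟨b, rfl⟩
  rw [map_mul, deh_zero hF hx hx0, zero_mul]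

lemma isGen_equiv {K N : Type} [Field K] [Algebra ℂ K] [Field N] [Algebra ℂ N]
    (e : K ≃ₐ[ℂ] N) {z : Fin (n + 2) → K} (h : IsGen F fun i => e (z i)) : IsGen F z := by
  refine ⟨?_, fun k H hH h0 => h.2 k H hH ?_⟩
  · have := h.1
    rw [red_comp, map_eq_zero_iff e e.injective] at this
    exact this
  · rw [red_comp, h0, map_zero]

lemma isGen_smul {K : Type} [Field K] [Algebra ℂ K] {z : Fin (n + 2) → K} (hF : F.IsHomogeneous d)
    {c : K} (hc : c ≠ 0) (h : IsGen F fun i => c * z i) : IsGen F z := by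
  refine ⟨?_, fun k H hH h0 => h.2 k H hH ?_⟩
  · have := h.1
    rw [aeval_smul_form hF] at this
    exact (mul_eq_zero.1 this).resolve_left (pow_ne_zero _ hc)
  · rw [aeval_smul_form hH, h0, mul_zero]

/-- the places at a rational point of the line -/
theorem at_point (hF : F.IsHomogeneous d) (hd : 2 ≤ d) (hF0 : F ≠ 0) {x : Fin (n + 2) → M}
    (hx : IsGen F x) {p : Fin (n + 2) → Ω} (h0 : p 0 ≠ 0) {S : Finset (Place ℂ Ω)}
    (hS : ∀ w, w ∈ S ↔ Good p x w) {z μ : Fin (n + 2) → M}
    (hl : LinearIndependent M ![z, μ]) {s₁ : Ω} (hs₁ : Transcendental M s₁)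
    (htop₁ : IntermediateField.adjoin M {s₁} = ⊤) (h0₁ : pt z μ s₁ 0 ≠ 0)
    (haff : aff p = aff (pt z μ s₁)) (m : ℕ)
    (hm : ∀ w ∈ S, Triv M w → 0 < w.ord s₁ →
      (w.ord (aeval (aff p) (deh F))).toNat = m * (w.ord s₁).toNat) (T : Finset (Place ℂ Ω))
    (hT : ∀ w, w ∈ T ↔ w ∈ S ∧ Triv M w ∧ 0 < w.ord s₁) :
    ∑ w ∈ T, (w.ord (aeval (aff p) (deh F))).toNat * finrank (ratioField (rpt w p)) w.RF =
      m * dg F z := by
  classical
  have hx0 : x 0 ≠ 0 := coord_ne hF hd hx hF0 0
  have hrpt : ∀ w : Place ℂ Ω, rpt w p = rpt w (pt z μ s₁) := by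
    intro w
    rw [rpt_eq w h0, rpt_eq w h0₁, haff]
  by_cases hz0 : z 0 = 0
  · have hng : ¬ IsGen F z := fun h => coord_ne hF hd h hF0 0 hz0
    have hTe : T = ∅ := by
      rw [Finset.eq_empty_iff_forall_notMem]
      intro w hw
      obtain ⟨h1, h2, h3⟩ := (hT w).1 hw
      have hg := ((hS w).1 h1).1
      rw [haff] at hg
      have h4 := unit0 w h2 hl (Or.inr h3.le) h0₁ hg
      have hs0 : s₁ ≠ 0 := by
        rintro rfl
        exact hs₁ isAlgebraic_zero
      have h5 : pt z μ s₁ 0 = s₁ * algebraMap M Ω (μ 0) := by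
        simp only [pt]
        rw [hz0, map_zero, zero_add]
      have h6 : algebraMap M Ω (μ 0) ≠ 0 := by
        intro h
        rw [h5, h, mul_zero] at h0₁
        exact h0₁ rfl
      have h7 : μ 0 ≠ 0 := fun h => h6 (by rw [h, map_zero])
      rw [h5, w.ord_mul hs0 h6, h2 _ h7] at h4
      omega
    rw [hTe, Finset.sum_empty, dg, if_neg hng, mul_zero]
  · obtain ⟨w₁, h1, h2, h3, h4, h5, e, h6⟩ := zero_place μ hz0 hs₁ htop₁
    have hsub : ∀ w ∈ T, w = w₁ := by
      intro w hw
      obtain ⟨-, h7, h8⟩ := (hT w).1 hw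
      exact h4 w h7 h8
    have haz : ∀ g : MvPolynomial (Fin (n + 1)) ℂ,
        aeval (fun j => w₁.red (aff p j)) g = e (aeval (aff z) g) := by
      intro g
      have h7 : (fun j => w₁.red (aff p j)) = fun j => e (aff z j) := by
        funext j
        rw [haff]
        exact h6 j.succ
      rw [h7, red_comp]
    by_cases hzg : IsGen F z
    · have hw₁ : Good p x w₁ := by
        refine ⟨fun j => by rw [haff]; exact h5 j, fun g => ?_⟩
        rw [haz, map_eq_zero_iff e e.injective, ← gen_iff_dvd hF hzg hz0,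
          gen_iff_dvd hF hx hx0]
      have hT1 : T = {w₁} := by
        ext w
        rw [Finset.mem_singleton]
        refine ⟨hsub w, ?_⟩
        rintro rfl
        exact (hT w).2 ⟨(hS w).2 hw₁, h3, by omega⟩
      have hfr : finrank (ratioField (rpt w₁ p)) w₁.RF = finrank (ratioField z) M := by
        have h7 : rpt w₁ p = fun i => e ((z 0)⁻¹ * z i) := by
          funext i
          rw [hrpt, h6, div_eq_inv_mul]
        rw [h7, ← ratio_equiv e fun i => (z 0)⁻¹ * z i, ratio_smul z (inv_ne_zero hz0)]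
      rw [hT1, Finset.sum_singleton, hm w₁ ((hS w₁).2 hw₁) h3 (by omega), h1, hfr, dg, if_pos hzg]
      simp
    · have hTe : T = ∅ := by
        rw [Finset.eq_empty_iff_forall_notMem]
        intro w hw
        have h7 := hsub w hw
        subst h7
        have h8 := (hS w).1 ((hT w).1 hw).1
        have h9 := isGen_rpt h0 hF hx0 hx h8
        apply hzg
        have h10 : rpt w p = fun i => e ((z 0)⁻¹ * z i) := by
          funext i
          rw [hrpt, h6, div_eq_inv_mul]
        rw [h10] at h9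
        exact isGen_smul hF (inv_ne_zero hz0) (isGen_equiv e h9)
      rw [hTe, Finset.sum_empty, dg, if_neg hzg, mul_zero]

omit [Algebra ℂ M] [Algebra ℂ Ω] [IsScalarTower ℂ M Ω] in
lemma trans_sub {s : Ω} (hs : Transcendental M s) (σ : M) :
    Transcendental M (s - algebraMap M Ω σ) := by
  intro h
  apply hs
  have h1 := h.add (isAlgebraic_algebraMap (R := M) (A := Ω) σ)
  rwa [sub_add_cancel] at h1

omit [Algebra ℂ M] [Algebra ℂ Ω] [IsScalarTower ℂ M Ω] in
lemma trans_inv {s : Ω} (hs : Transcendental M s) : Transcendental M s⁻¹ := by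
  intro h
  apply hs
  have h1 := h.inv
  rwa [inv_inv] at h1

omit [Algebra ℂ M] [Algebra ℂ Ω] [IsScalarTower ℂ M Ω] in
lemma top_of_mem {s s₁ : Ω} (htop : IntermediateField.adjoin M {s} = ⊤)
    (h : s ∈ IntermediateField.adjoin M {s₁}) : IntermediateField.adjoin M {s₁} = ⊤ := by
  rw [eq_top_iff, ← htop, IntermediateField.adjoin_le_iff, Set.singleton_subset_iff]
  exact h

/-- the general law: all points of intersection are rational over the base -/
theorem law (hF : F.IsHomogeneous d) (hd : 2 ≤ d)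
    (hsm : ∀ z : Fin (n + 2) → ℂ, (∀ i, eval z (pderiv i F) = 0) → z = 0)
    {x : Fin (n + 2) → M} (hx : IsGen F x) (hfd : FiniteDimensional (ratioField x) M)
    {lam : Fin (n + 2) → M} (hl : LinearIndependent M ![x, lam]) {s : Ω}
    (hs : Transcendental M s) (htop : IntermediateField.adjoin M {s} = ⊤)
    {I : Type} [Fintype I] (σ : I → M) (hσ : Function.Injective σ) (m : I → ℕ)
    (hmd : ∑ i, m i ≤ d) {c : M} (hc : c ≠ 0)
    (hFc : aeval (pt x lam s) F = algebraMap M Ω c * ∏ i, (s - algebraMap M Ω (σ i)) ^ m i) :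
    ∃ k, finrank (ratioField (pt x lam s)) Ω = (d - 1) * k +
      (∑ i, m i * dg F (fun j => x j + σ i * lam j) + (d - ∑ i, m i) * dg F lam) := by
  classical
  have hF0 : F ≠ 0 := ne_zero_of_smooth (m := n + 1) hsm
  have hxne : ∀ i, x i ≠ 0 := coord_ne hF hd hx hF0
  have hs0 : s ≠ 0 := by
    rintro rfl
    exact hs isAlgebraic_zero
  have hsσ : ∀ i, s - algebraMap M Ω (σ i) ≠ 0 := by
    intro i h
    have := trans_sub hs (σ i)
    rw [h] at this
    exact this isAlgebraic_zero
  have hmne : ∀ m : M, m ≠ 0 → algebraMap M Ω m ≠ 0 := fun m hm h =>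
    hm ((algebraMap M Ω).injective (by rw [h, map_zero]))
  have hc' : algebraMap M Ω c ≠ 0 := hmne c hc
  have hprod : ∏ i, (s - algebraMap M Ω (σ i)) ^ m i ≠ 0 :=
    Finset.prod_ne_zero_iff.2 fun i _ => pow_ne_zero _ (hsσ i)
  have hFp : aeval (pt x lam s) F ≠ 0 := by
    rw [hFc]
    exact mul_ne_zero hc' hprod
  obtain ⟨hM, h0, hind, hfin, S, hS, hSpos, hSum⟩ := setup hF hd hx hF0 hfd hs htop hFp
  have hordprod : ∀ w : Place ℂ Ω, w.ord (∏ i, (s - algebraMap M Ω (σ i)) ^ m i) =
      ∑ i, (m i : ℤ) * w.ord (s - algebraMap M Ω (σ i)) := by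
    intro w
    have h1 : ∀ t : Finset I, w.ord (∏ i ∈ t, (s - algebraMap M Ω (σ i)) ^ m i) =
        ∑ i ∈ t, (m i : ℤ) * w.ord (s - algebraMap M Ω (σ i)) := by
      intro t
      induction t using Finset.induction_on with
      | empty => rw [Finset.prod_empty, Finset.sum_empty, w.ord_one]
      | insert a t ha ih =>
        rw [Finset.prod_insert ha, Finset.sum_insert ha, w.ord_mul (pow_ne_zero _ (hsσ a))
          (Finset.prod_ne_zero_iff.2 fun i _ => pow_ne_zero _ (hsσ i)), ih, w.ord_pow]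
    exact h1 Finset.univ
  have hord : ∀ w : Place ℂ Ω, Triv M w →
      w.ord (aeval (aff (pt x lam s)) (deh F)) =
        ∑ i, (m i : ℤ) * w.ord (s - algebraMap M Ω (σ i)) - d * w.ord (pt x lam s 0) := by
    intro w hw
    rw [ord_pi hF w h0 hFp, hFc, w.ord_mul hc' hprod, hw c hc, zero_add, hordprod]
  have hregM : ∀ w : Place ℂ Ω, Triv M w → ∀ m : M, w.Reg (algebraMap M Ω m) := by
    intro w hw m
    by_cases hm : m = 0
    · left
      rw [hm, map_zero]
    · right
      rw [hw m hm]
  -- poles of the parameter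
  have hneg : ∀ w : Place ℂ Ω, Triv M w → w.ord s < 0 → ∀ i,
      w.ord (s - algebraMap M Ω (σ i)) = w.ord s := by
    intro w hw hs1 i
    by_cases h1 : σ i = 0
    · rw [h1, map_zero, sub_zero]
    · rw [sub_eq_add_neg]
      refine (w.ord_add_eq hs0 (neg_ne_zero.2 (hmne _ h1)) ?_).2
      rw [w.ord_neg, hw _ h1]
      exact hs1
  -- zeros
  have hregs : ∀ w : Place ℂ Ω, Triv M w → w.Reg s → ∀ i,
      0 ≤ w.ord (s - algebraMap M Ω (σ i)) := by
    intro w hw hs1 i
    rw [← w.reg_iff (hsσ i), sub_eq_add_neg]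
    exact w.reg_add hs1 (w.reg_neg (hregM w hw _))
  have huniq : ∀ w : Place ℂ Ω, Triv M w → ∀ i j, 0 < w.ord (s - algebraMap M Ω (σ i)) →
      0 < w.ord (s - algebraMap M Ω (σ j)) → i = j := by
    intro w hw i j hi hj
    by_contra hij
    have h1 : σ j - σ i ≠ 0 := sub_ne_zero.2 fun h => hij (hσ h.symm)
    have h2 : (s - algebraMap M Ω (σ i)) - (s - algebraMap M Ω (σ j)) =
        algebraMap M Ω (σ j - σ i) := by
      rw [map_sub]
      ring
    have h3 := w.ord_sub (hsσ i) (hsσ j) (by rw [h2]; exact hmne _ h1)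
    rw [h2, hw _ h1] at h3
    have := lt_min hi hj
    omega
  have hunit : ∀ w ∈ S, Triv M w → w.Reg s → w.ord (pt x lam s 0) = 0 := fun w hw h1 h2 =>
    unit0 w h1 hl h2 h0 ((hS w).1 hw).1
  have hl' : LinearIndependent M ![lam, x] := by
    rw [LinearIndependent.pair_symm_iff]
    exact hl
  have h0' : pt lam x s⁻¹ 0 ≠ 0 := by
    intro h
    apply h0
    rw [pt_inv x lam hs0, h, mul_zero]
  have hpole : ∀ w ∈ S, Triv M w → w.ord s < 0 → w.ord (pt x lam s 0) = w.ord s := by
    intro w hw h1 h2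
    have hsr' : w.Reg s⁻¹ := Or.inr (by rw [w.ord_inv]; omega)
    have hu := unit0 w h1 hl' hsr' h0' (by rw [← aff_inv x lam hs0]; exact ((hS w).1 hw).1)
    rw [pt_inv x lam hs0, w.ord_mul hs0 h0', hu, add_zero]
  -- the parts
  let u : Option I → Ω := fun o => o.elim s⁻¹ fun i => s - algebraMap M Ω (σ i)
  let T : Option I → Finset (Place ℂ Ω) := fun o => S.filter fun w => Triv M w ∧ 0 < w.ord (u o)
  have hT : ∀ o w, w ∈ T o ↔ w ∈ S ∧ Triv M w ∧ 0 < w.ord (u o) := fun o w => Finset.mem_filter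
  have hnone : u none = s⁻¹ := rfl
  have hsome : ∀ i, u (some i) = s - algebraMap M Ω (σ i) := fun i => rfl
  have hcover : S.filter (fun w => Triv M w) = (Finset.univ : Finset (Option I)).biUnion T := by
    ext w
    rw [Finset.mem_filter, Finset.mem_biUnion]
    constructor
    · rintro ⟨h1, h2⟩
      by_cases hs1 : w.Reg s
      · have hpos := good_pos hF w h0 hFp hx (hxne 0) ((hS w).1 h1)
        rw [hord w h2, hunit w h1 h2 hs1, mul_zero, sub_zero] at hpos
        obtain ⟨i, -, hi⟩ := Finset.exists_lt_of_sum_lt (s := Finset.univ)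
          (f := fun _ : I => (0 : ℤ)) (g := fun i => (m i : ℤ) * w.ord (s - algebraMap M Ω (σ i)))
          (by simpa using hpos)
        refine ⟨some i, Finset.mem_univ _, (hT _ _).2 ⟨h1, h2, ?_⟩⟩
        rw [hsome]
        have h3 := hregs w h2 hs1 i
        by_contra hcon
        have h4 : w.ord (s - algebraMap M Ω (σ i)) = 0 := by omega
        simp only [h4, mul_zero] at hi
        exact lt_irrefl _ hi
      · refine ⟨none, Finset.mem_univ _, (hT _ _).2 ⟨h1, h2, ?_⟩⟩
        rw [hnone, w.ord_inv]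
        rw [w.reg_iff hs0] at hs1
        omega
    · rintro ⟨o, -, ho⟩
      obtain ⟨h1, h2, -⟩ := (hT _ _).1 ho
      exact ⟨h1, h2⟩
  have hdisj : ∀ o ∈ (Finset.univ : Finset (Option I)), ∀ o' ∈ (Finset.univ : Finset (Option I)),
      o ≠ o' → Disjoint (T o) (T o') := by
    intro o _ o' _ hoo
    rw [Finset.disjoint_left]
    intro w hw hw'
    obtain ⟨-, h1, h2⟩ := (hT _ _).1 hw
    obtain ⟨-, -, h3⟩ := (hT _ _).1 hw'
    have hno : ∀ i, 0 < w.ord (s - algebraMap M Ω (σ i)) → 0 < w.ord s⁻¹ → False := by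
      intro i h4 h5
      rw [w.ord_inv] at h5
      rw [hneg w h1 (by omega) i] at h4
      omega
    rcases o with _ | i <;> rcases o' with _ | j
    · exact hoo rfl
    · exact hno j h3 h2
    · exact hno i h2 h3
    · exact hoo (congrArg some (huniq w h1 i j h2 h3))
  let D : Place ℂ Ω → ℕ := fun w => (w.ord (aeval (aff (pt x lam s)) (deh F))).toNat *
      finrank (ratioField (rpt w (pt x lam s))) w.RF
  have hDnone : ∑ w ∈ T none, D w = (d - ∑ i, m i) * dg F lam := by
    refine at_point hF hd hF0 hx h0 hS hl' (trans_inv hs) (top_of_mem htop ?_) h0'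
      (aff_inv x lam hs0) _ ?_ (T none) (hT none)
    · have := inv_mem (IntermediateField.mem_adjoin_simple_self M s⁻¹)
      rwa [inv_inv] at this
    · intro w hw h1 h2
      have h3 : w.ord s < 0 := by
        rw [w.ord_inv] at h2
        omega
      rw [hord w h1, hpole w hw h1 h3, Finset.sum_congr rfl fun i _ => by rw [hneg w h1 h3 i],
        ← Finset.sum_mul, w.ord_inv]
      have h4 : (∑ i, (m i : ℤ)) * w.ord s - d * w.ord s =
          ((d - ∑ i, m i : ℕ) : ℤ) * (-w.ord s) := by
        rw [Nat.cast_sub hmd]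
        push_cast
        ring
      rw [h4, Int.toNat_mul (by positivity) (by omega), Int.toNat_natCast]
  have hDsome : ∀ i, ∑ w ∈ T (some i), D w = m i * dg F (fun j => x j + σ i * lam j) := by
    intro i
    have hli : LinearIndependent M ![fun j => x j + σ i * lam j, lam] := by
      rw [LinearIndependent.pair_iff] at hl ⊢
      intro a b hab
      have h1 := hl a (a * σ i + b) (by
        rw [← hab]
        funext j
        simp only [Pi.add_apply, Pi.smul_apply, smul_eq_mul]
        ring)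
      refine ⟨h1.1, ?_⟩
      have h2 := h1.2
      rw [h1.1, zero_mul, zero_add] at h2
      exact h2
    have hpt : pt (fun j => x j + σ i * lam j) lam (s - algebraMap M Ω (σ i)) = pt x lam s := by
      funext j
      simp only [pt, map_add, map_mul]
      ring
    refine at_point hF hd hF0 hx h0 hS hli (trans_sub hs (σ i)) (top_of_mem htop ?_)
      (by rw [hpt]; exact h0) (by rw [hpt]) _ ?_ (T (some i)) (hT (some i))
    · have h1 := add_mem (IntermediateField.mem_adjoin_simple_self M (s - algebraMap M Ω (σ i)))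
        (IntermediateField.algebraMap_mem (IntermediateField.adjoin M
          {s - algebraMap M Ω (σ i)}) (σ i))
      rwa [sub_add_cancel] at h1
    · intro w hw h1 h2
      have hs1 : w.Reg s := by
        by_contra hcon
        rw [w.reg_iff hs0] at hcon
        rw [hneg w h1 (by omega) i] at h2
        omega
      have h3 : ∑ j, (m j : ℤ) * w.ord (s - algebraMap M Ω (σ j)) =
          m i * w.ord (s - algebraMap M Ω (σ i)) := by
        refine Finset.sum_eq_single i (fun j _ hj => ?_) fun h => absurd (Finset.mem_univ _) h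
        have h4 := hregs w h1 hs1 j
        have h5 : ¬ 0 < w.ord (s - algebraMap M Ω (σ j)) := fun h => hj (huniq w h1 j i h h2)
        have h6 : w.ord (s - algebraMap M Ω (σ j)) = 0 := by omega
        rw [h6, mul_zero]
      rw [hord w h1, hunit w hw h1 hs1, h3, mul_zero, sub_zero,
        Int.toNat_mul (by positivity) h2.le, Int.toNat_natCast]
  have hvert : d - 1 ∣ ∑ w ∈ S.filter (fun w => ¬ Triv M w), D w := by
    refine Finset.dvd_sum fun w hw => ?_
    obtain ⟨h1, h2⟩ := Finset.mem_filter.1 hw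
    unfold Triv at h2
    push Not at h2
    obtain ⟨m, hm, hmo⟩ := h2
    have hfdw : FiniteDimensional (ratioField (rpt w (pt x lam s))) w.RF :=
      .of_finrank_pos (hSpos w h1)
    exact Dvd.dvd.mul_left (vert hF hd hsm hM w hx hl s h0 ((hS w).1 h1) hfdw hm hmo) _
  obtain ⟨k, hk⟩ := hvert
  refine ⟨k, ?_⟩
  rw [← hSum, ← Finset.sum_filter_add_sum_filter_not S (fun w => Triv M w)]
  change ∑ w ∈ S.filter (fun w => Triv M w), D w + ∑ w ∈ S.filter (fun w => ¬ Triv M w), D w = _
  rw [hk, hcover, Finset.sum_biUnion hdisj, Fintype.sum_option, hDnone,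
    Finset.sum_congr rfl fun i _ => hDsome i]
  ring

end

end Pool.Agent.Q35.PL
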