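import Mathlib
import Pool.Agent.Q35.PL.Law2

/-! # Parity of families of lines: tangent lines, secant lines -/

set_option autoImplicit false

namespace Pool.Agent.Q35.PL

open MvPolynomial Pool.Agent.TH314.PD Module FF Pool.Agent.Y201.LI

noncomputable section

variable {n d : ℕ} {F : MvPolynomial (Fin (n + 2)) ℂ} {M : Type} [Field M] [Algebra ℂ M]

lemma bin_top (hF : F.IsHomogeneous d) (x z : Fin (n + 2) → M) :
    (bin F x z).natDegree ≤ d ∧ (bin F x z).coeff d = aeval z F := by
  have h1 := Pool.Agent.Y155.LI.top_eval (algebraMap ℂ M) F hF z x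
  have h2 : (eval₂ ((Polynomial.C : M →+* Polynomial M).comp (algebraMap ℂ M))
      (fun j => Polynomial.X * Polynomial.C (z j) + Polynomial.C (x j)) F) = bin F x z := by
    unfold bin
    rw [aeval_def]
    congr 1
    funext j
    ring
  rw [h2] at h1
  exact h1

/-- the coefficient next to the top -/
lemma bin_sub (hF : F.IsHomogeneous d) (hd : 1 ≤ d) (x z : Fin (n + 2) → M) :
    (bin F x z).coeff (d - 1) = ∑ i, x i * aeval z (pderiv i F) := by
  classical
  set Y : Fin (n + 2) → Polynomial M := fun j =>
    Polynomial.C (x j) + Polynomial.X * Polynomial.C (z j) with hY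
  have hD : ∑ i, aeval Y (pderiv i F) * Polynomial.C (z i) =
      Polynomial.derivative (bin F x z) := by
    have h1 := chain_rule ((Polynomial.derivative' : Derivation M (Polynomial M)
      (Polynomial M)).restrictScalars ℂ) Y F
    have h2 : ((Polynomial.derivative' : Derivation M (Polynomial M)
        (Polynomial M)).restrictScalars ℂ) (aeval Y F) =
        Polynomial.derivative (bin F x z) := rfl
    rw [← h2, h1]
    refine Finset.sum_congr rfl fun i _ => ?_
    congr 1
    show _ = Polynomial.derivative (Y i)
    simp [hY]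
  have hE : ∑ i, Y i * aeval Y (pderiv i F) = (d : Polynomial M) * bin F x z := by
    have h1 := congrArg (aeval Y) hF.sum_X_mul_pderiv
    rw [map_sum, map_nsmul, nsmul_eq_mul] at h1
    simp only [map_mul, aeval_X] at h1
    exact h1
  have h3 : ∑ i, Polynomial.C (x i) * aeval Y (pderiv i F) = (d : Polynomial M) * bin F x z -
      Polynomial.X * Polynomial.derivative (bin F x z) := by
    rw [← hE, ← hD, Finset.mul_sum, ← Finset.sum_sub_distrib]
    refine Finset.sum_congr rfl fun i _ => ?_
    simp only [hY]
    ring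
  have h4 := congrArg (fun P => Polynomial.coeff P (d - 1)) h3
  simp only [Polynomial.finsetSum_coeff, Polynomial.coeff_C_mul, Polynomial.coeff_sub] at h4
  have h5 : ∀ i, (aeval Y (pderiv i F)).coeff (d - 1) = aeval z (pderiv i F) := fun i =>
    (bin_top (F := pderiv i F) hF.pderiv x z).2
  rw [Finset.sum_congr rfl fun i _ => by rw [h5 i]] at h4
  rw [h4]
  obtain ⟨k, rfl⟩ : ∃ k, d = k + 1 := ⟨d - 1, by omega⟩
  rw [Nat.add_sub_cancel]
  have h6 : (((k + 1 : ℕ) : Polynomial M) * bin F x z).coeff k = (k + 1) * (bin F x z).coeff k := by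
    rw [← Polynomial.C_eq_natCast, Polynomial.coeff_C_mul]
    push_cast
    rfl
  rw [h6]
  rcases k with _ | k
  · simp
  · rw [Polynomial.coeff_X_mul, Polynomial.coeff_derivative]
    push_cast
    ring

/-- the field of rational functions of the line -/
abbrev RF' (M : Type) [Field M] : Type := FractionRing (Polynomial M)

/-- the parameter -/
def ss (M : Type) [Field M] : RF' M := algebraMap (Polynomial M) (RF' M) Polynomial.X

omit [Algebra ℂ M] in
lemma ss_trans : Transcendental M (ss M) :=
  (transcendental_algebraMap_iff (IsFractionRing.injective (Polynomial M) (RF' M))).2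
    (Polynomial.transcendental_X M)

omit [Algebra ℂ M] in
lemma ss_top : IntermediateField.adjoin M {ss M} = ⊤ := by
  rw [eq_top_iff]
  rintro z -
  obtain ⟨P, Q, -, rfl⟩ := IsFractionRing.div_surjective (A := Polynomial M) z
  have h1 : ∀ P : Polynomial M, algebraMap (Polynomial M) (RF' M) P ∈
      IntermediateField.adjoin M {ss M} := by
    intro P
    have h2 : algebraMap (Polynomial M) (RF' M) P = Polynomial.aeval (ss M) P := by
      unfold ss
      rw [Polynomial.aeval_algebraMap_apply, Polynomial.aeval_X_left_apply]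
    have h3 : ss M ∈ IntermediateField.adjoin M {ss M} :=
      IntermediateField.mem_adjoin_simple_self _ _
    rw [h2, Polynomial.aeval_eq_sum_range]
    exact sum_mem fun i _ => by
      rw [Algebra.smul_def]
      exact mul_mem (IntermediateField.algebraMap_mem _ _) (pow_mem h3 i)
  exact div_mem (h1 P) (h1 Q)

omit [Algebra ℂ M] in
lemma aeval_ss (P : Polynomial M) : Polynomial.aeval (ss M) P = algebraMap _ (RF' M) P := by
  unfold ss
  rw [Polynomial.aeval_algebraMap_apply, Polynomial.aeval_X_left_apply]

/-- the polar quadrics of the points of the line have a common zero -/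
theorem even_of_common {Ω : Type} [Field Ω] [Algebra M Ω] [Algebra ℂ Ω] [IsScalarTower ℂ M Ω]
    (hF : F.IsHomogeneous d) (hd : 2 ≤ d)
    (hsm : ∀ z : Fin (n + 2) → ℂ, (∀ i, eval z (pderiv i F) = 0) → z = 0)
    {x lam : Fin (n + 2) → M} (hx : IsGen F x) (hfd : FiniteDimensional (ratioField x) M)
    (hb : bin F x lam ≠ 0) {s : Ω} (hs : Transcendental M s)
    (htop : IntermediateField.adjoin M {s} = ⊤) {u : Fin (n + 2) → M} (hu : u ≠ 0)
    (h1 : ∑ i, x i * aeval u (pderiv i F) = 0) (h2 : ∑ i, lam i * aeval u (pderiv i F) = 0) :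
    d - 1 ∣ finrank (ratioField (pt x lam s)) Ω := by
  have hF0 : F ≠ 0 := ne_zero_of_smooth (m := n + 1) hsm
  have hFp : aeval (pt x lam s) F ≠ 0 := fun h =>
    hb ((bin_zero_iff hs F).1 h)
  obtain ⟨-, h0, -, hfin, -⟩ := setup hF hd hx hF0 hfd hs htop hFp
  refine one_pt hF hsm h0 (gen_pt hs hF hd hx hb) hfin
    (y := fun i => algebraMap M Ω (u i)) ?_ ?_
  · intro h
    apply hu
    funext i
    have := congrFun h i
    exact (algebraMap M Ω).injective (by rw [this]; simp)
  · have h3 : ∀ i, pt x lam s i * aeval (fun i => algebraMap M Ω (u i)) (pderiv i F) =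
        algebraMap M Ω (x i * aeval u (pderiv i F)) +
          s * algebraMap M Ω (lam i * aeval u (pderiv i F)) := by
      intro i
      have h4 : aeval (fun i => algebraMap M Ω (u i)) (pderiv i F) =
          algebraMap M Ω (aeval u (pderiv i F)) := aeval_algebraMap_apply _ _ _
      rw [h4, map_mul, map_mul]
      simp only [pt]
      ring
    rw [Finset.sum_congr rfl fun i _ => h3 i, Finset.sum_add_distrib, ← Finset.mul_sum,
      ← map_sum, ← map_sum, h1, h2, map_zero, mul_zero, add_zero]

/-- lines through the generic point which have contact of order at least `d - 1` at another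
point -/
theorem contact_other (hF : F.IsHomogeneous d) (hd : 3 ≤ d)
    (hsm : ∀ z : Fin (n + 2) → ℂ, (∀ i, eval z (pderiv i F) = 0) → z = 0)
    {x lam : Fin (n + 2) → M} (hx : IsGen F x) (hl : LinearIndependent M ![x, lam]) (c : M)
    (h : bin F x lam = Polynomial.C c * Polynomial.X) :
    d - 1 ∣ finrank (ratioField x) M := by
  by_cases hfd : FiniteDimensional (ratioField x) M
  swap
  · rw [Module.finrank_of_not_finite hfd]
    exact dvd_zero _
  by_cases hc : c = 0
  · refine contact (r := n + 1) hF (by omega) hsm x hx.1 hx.2 lam hl 0 ?_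
    rw [map_zero, zero_mul]
    rw [hc, map_zero, zero_mul] at h
    exact h
  · have hb : bin F x lam ≠ 0 := by
      rw [h]
      exact mul_ne_zero (Polynomial.C_ne_zero.2 hc) Polynomial.X_ne_zero
    obtain ⟨k, hk⟩ := law1 hF (by omega) hsm hx hfd hl ss_trans ss_top hc (by
      rw [aeval_pt, h, aeval_ss, map_mul]
      rfl)
    have h1 : ∑ i, x i * aeval lam (pderiv i F) = 0 := by
      rw [← bin_sub hF (by omega) x lam, h, Polynomial.coeff_C_mul, Polynomial.coeff_X,
        if_neg (by omega), mul_zero]
    have h2 : ∑ i, lam i * aeval lam (pderiv i F) = 0 := by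
      have h3 := congrArg (aeval lam) hF.sum_X_mul_pderiv
      rw [map_sum, map_nsmul] at h3
      simp only [map_mul, aeval_X] at h3
      rw [h3, ← (bin_top hF x lam).2, h, Polynomial.coeff_C_mul, Polynomial.coeff_X,
        if_neg (by omega), mul_zero, smul_zero]
    have h4 := even_of_common hF (by omega) hsm hx hfd hb ss_trans ss_top (u := lam)
      (hl.ne_zero 1) h1 h2
    rw [hk] at h4
    exact (Nat.dvd_add_right (dvd_mul_right _ _)).1 h4

/-- the law for cubics: `F(x + s z) = c s (s - σ)` -/
theorem cubic_law (hF : F.IsHomogeneous 3)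
    (hsm : ∀ z : Fin (n + 2) → ℂ, (∀ i, eval z (pderiv i F) = 0) → z = 0)
    {x z : Fin (n + 2) → M} (hx : IsGen F x) (hfd : FiniteDimensional (ratioField x) M)
    (hl : LinearIndependent M ![x, z]) {c σ : M} (hc : c ≠ 0)
    (h : bin F x z = Polynomial.C c * (Polynomial.X * (Polynomial.X - Polynomial.C σ))) :
    finrank (ratioField (pt x z (ss M))) (RF' M) ≡
      dg F x + dg F (fun j => x j + σ * z j) + dg F z [MOD 2] := by
  have hFp : aeval (pt x z (ss M)) F =
      algebraMap M (RF' M) c * (ss M * (ss M - algebraMap M (RF' M) σ)) := by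
    rw [aeval_pt, h, aeval_ss, map_mul, map_mul, map_sub]
    rfl
  have hx0 : (fun j => x j + 0 * z j) = x := by
    funext j
    ring
  by_cases hσ : σ = 0
  · subst hσ
    obtain ⟨k, hk⟩ := law hF (by norm_num) hsm hx hfd hl ss_trans ss_top
      (I := Unit) (fun _ => 0) (fun _ _ _ => rfl) (fun _ => 2) (by simp) hc (by
        rw [hFp]
        simp only [map_zero, sub_zero, Finset.univ_unique, Finset.prod_const,
          Finset.card_singleton, pow_one]
        ring)
    rw [hk, hx0]
    simp only [Finset.univ_unique, Finset.sum_singleton]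
    unfold Nat.ModEq
    omega
  · obtain ⟨k, hk⟩ := law hF (by norm_num) hsm hx hfd hl ss_trans ss_top
      (I := Fin 2) ![0, σ] (by
        intro i j hij
        fin_cases i <;> fin_cases j <;> simp_all) (fun _ => 1) (by simp) hc (by
        rw [hFp]
        simp [Fin.prod_univ_two])
    rw [hk]
    simp only [Fin.sum_univ_two, Matrix.cons_val_zero, Matrix.cons_val_one, hx0]
    unfold Nat.ModEq
    omega

end

end Pool.Agent.Q35.PL
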